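import Pool.Agent.H97.RL.Targets3

/-!
Random formulas and resolution at the scale of SETH (MP_c62aed_lc): few wide lines in `U`: targets.
-/

set_option autoImplicit false

namespace Pool.Agent.H97.RL

open Finset Pool.Agent.H97.RK

/-- (PDE) the path through a piece in which few variables are resolved in many parts, the values on
`A₀` are fixed. -/
def T_PDE : Prop :=
  ∀ (n k m : ℕ) (F : Fml n k m) (j t d e s₀ : ℕ), Par F j t d e s₀ → 1 ≤ d →
    2 * d + e ≤ n →
    ∀ (S r : ℕ) (line : ℕ → Clause n) (rule : ℕ → Rule n), IsRef F S r line rule →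
    ∀ (U V : Finset ℕ) (an : ℕ → ℕ) (ls : ℕ → List (Fin n × Bool)),
    Tree S r rule (U ∪ V) an ls → ∀ R h : ℕ,
    (∀ (a i : ℕ) (q : Finset (Fin n)) (l : List (Fin n)), (a = r ∨ a ∈ U) →
      Seg3 rule U V a i q l → (univ.filter fun v => R < l.count v).card ≤ h) →
    ∀ (z y₀ : Fin n → Bool) (A₀ : Finset (Fin n)) (l : ℕ), l < S → l ≤ r → (l ∈ U ∨ l = r) →
    At F j t d e line y₀ A₀ l →
    (∃ i, i < S ∧ ∃ y : Fin n → Bool, Falsified (exC (line (an i)) (ls i)) y ∧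
      n ≤ (A₀ ∪ vs (exC (line (an i)) (ls i))).card + (h + 3 * d) ∧
      (univ.filter fun v => v ∉ A₀ ∪ vs (line l) ∧ y v ≠ z v).card ≤
        e + 2 * t * (n * R / d + 1)) ∨
      ∃ l', l' < l ∧ l' ∈ U ∧ At F j t d e line y₀ A₀ l'

/-- (CNX) some restriction is inconsistent with all wide lines. -/
def T_CNX : Prop :=
  ∀ (n t w Q : ℕ) (line : ℕ → Clause n) (U : Finset ℕ), 1 ≤ Q → t ≤ w → w ≤ n →
    (∀ l ∈ U, w ≤ (vs (line l)).card) →
    2 * (U.card * (bl n t * ((2 * Q - 1) ^ (w - t) * (2 * Q) ^ (n - (w - t))))) < (2 * Q) ^ n →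
    ∃ (x : Fin n → Bool) (A : Finset (Fin n)), Q * A.card ≤ 2 * n ∧
      ∀ l ∈ U, ∀ y : Fin n → Bool, Falsified (line l) y →
        t < (A.filter fun v => y v ≠ x v).card

end Pool.Agent.H97.RL
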