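import Pool.Agent.H97.RL.FN4
import Pool.Agent.H97.RL.All
import Pool.Agent.H97.RLM.PDB
import Pool.Agent.H97.RLM.PDE
import Pool.Agent.H20.RLM.CNX

/-!
Random formulas and resolution at the scale of SETH (MP_c62aed_lc): the theorem.
-/

set_option autoImplicit false

namespace Pool.Agent.H97.RL

open Pool.Agent.H97.RK

theorem main4 : Main4 :=
  pf_FN4 H37.RKS.pf_CN1 (H37.RKS.pf_TAU ask)
    (H4.RKS.pf_MED H42.RKS.pf_FIX H27.RKS.pf_TRS) H70.RKS.pf_CN2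
    (H11.RKS.pf_PX1 H54.RKS.pf_PBN) (H66.RKS.pf_PX2 H54.RKS.pf_PBN) H34.RKS.pf_PSA
    H78.RKS.pf_NX1 H27.RKS.pf_NX2 (H20.RKS.pf_PRM H45.RKS.pf_BLB)
    H14.RLM.pf_TRE
    (H32.RLM.pf_PCA (H14.RLM.pf_STQ ask) H78.RLM.pf_RST fgt)
    (H97.RLM.pf_PDB (H14.RLM.pf_STQ ask) H78.RLM.pf_RST fgt)
    (H97.RLM.pf_PDE (H14.RLM.pf_STQ ask) H78.RLM.pf_RST fgt)
    H20.RLM.pf_CNX
    (H1.RLM.pf_ALZ (H37.RKS.pf_TAU ask))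
    (H79.RLM.pf_CN5 H7.RLM.pf_CN3 H12.RLM.pf_CN4)
    (H97.RLM.pf_CN6 H7.RLM.pf_CN3 H12.RLM.pf_CN4)
    H49.RLM.pf_NUM H49.RLM.pf_NU2 H68.RLM.pf_BLA H45.RKS.pf_BLB

end Pool.Agent.H97.RL
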