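import Pool.Agent.H97.RL.Targets

/-!
Random formulas and resolution at the scale of SETH (MP_c62aed_lc): narrow lines may be used
arbitrarily often: targets.
-/

set_option autoImplicit false

namespace Pool.Agent.H97.RL

open Finset Pool.Agent.H97.RK

/-- (PCC) the path through a piece in which few variables are resolved often, nothing is fixed. -/
def T_PCC : Prop :=
  ∀ (n k m : ℕ) (F : Fml n k m) (j t d e s₀ : ℕ), Par F j t d e s₀ → 1 ≤ d →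
    2 * d + e ≤ n →
    ∀ (S r : ℕ) (line : ℕ → Clause n) (rule : ℕ → Rule n), IsRef F S r line rule →
    ∀ (U : Finset ℕ) (R h : ℕ), (∀ (a i : ℕ) (l : List (Fin n)), (a = r ∨ a ∈ U) →
      Seg rule U a i l → (univ.filter fun v => R < l.count v).card ≤ h) →
    ∀ (z y₀ : Fin n → Bool) (l : ℕ), l < S → (l ∈ U ∨ l = r) → At F j t d e line y₀ ∅ l →
    (∃ i, i < S ∧ ∃ y : Fin n → Bool, Falsified (line i) y ∧
      n ≤ (vs (line i)).card + (h + 3 * d) ∧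
      (univ.filter fun v => v ∉ vs (line l) ∧ y v ≠ z v).card ≤ e + 2 * t * (n * R / d + 1)) ∨
      ∃ l', l' < l ∧ l' ∈ U ∧ At F j t d e line y₀ ∅ l'

open Classical in
/-- (CN6) everything is served: the lines with at most `w₀` variables are not counted. -/
def T_CN6 : Prop :=
  ∀ (n q a w₀ : ℕ) (line : ℕ → Clause n) (U : Finset ℕ) (E : Finset (ℕ × ℕ))
    (P : ℕ → ℕ → Fin n → Option Bool), w₀ ≤ n →
    (∀ (x : Fin n → Bool) (A : Finset (Fin n)), A.card + a ≤ n →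
      ∃ l, (l ∈ U ∨ (vs (line l)).card ≤ w₀) ∧
        ∀ z, ∃ i, (l, i) ∈ E ∧ Ser (line l) (P l i) q x z A) →
    8 ^ n ≤ E.card * (6 ^ w₀ * 4 ^ (n - w₀) * bl n q ^ 2) +
      U.card * (6 ^ w₀ * 8 ^ (n - w₀) * bl n q ^ 2) + 4 ^ n * bl n a

/-- (NU2) the numbers. -/
def T_NU2 : Prop :=
  ∀ (n N M X b w : ℕ), 1 ≤ X → M ≤ N → 4 * (4 ^ n * b) ≤ 8 ^ n → w ≤ n →
    (∀ w₀, w ≤ w₀ → w₀ ≤ n → 8 ^ n ≤ N * (6 ^ w₀ * 4 ^ (n - w₀) * X) +
      M * (6 ^ w₀ * 8 ^ (n - w₀) * X) + 4 ^ n * b) →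
    4 ^ n * 4 ^ w ≤ 1024 * N ^ 2 * (M + 1) ^ 3 * X ^ 5 * 9 ^ w

end Pool.Agent.H97.RL
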