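import Pool.Agent.H97.RL.Stmt3
import Pool.Agent.H97.RL.Targets2

/-!
Random formulas and resolution at the scale of SETH (MP_c62aed_lc): paths cut into parts: targets.
-/

set_option autoImplicit false

namespace Pool.Agent.H97.RL

open Finset Pool.Agent.H97.RK

/-- the clause which is falsified if `C` is falsified and the answers in `ls` were given -/
def exC {n : ℕ} (C : Clause n) (ls : List (Fin n × Bool)) : Clause n :=
  C ∪ (ls.map fun p => (p.1, !p.2)).toFinset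

/-- (PDB) the path through a piece, some values are fixed. -/
def T_PDB : Prop :=
  ∀ (n k m : ℕ) (F : Fml n k m) (j t d e s₀ : ℕ), Par F j t d e s₀ → 1 ≤ d →
    2 * d + e ≤ n →
    ∀ (S r : ℕ) (line : ℕ → Clause n) (rule : ℕ → Rule n), IsRef F S r line rule →
    ∀ (U V : Finset ℕ) (an : ℕ → ℕ) (ls : ℕ → List (Fin n × Bool)),
    Tree S r rule (U ∪ V) an ls → ∀ R : ℕ,
    (∀ (a i : ℕ) (q : Finset (Fin n)) (l : List (Fin n)), (a = r ∨ a ∈ U) →
      Seg3 rule U V a i q l → ∀ v, l.count v ≤ R) →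
    ∀ (x z y₀ : Fin n → Bool) (A₀ : Finset (Fin n)) (l : ℕ), l < S → l ≤ r → (l ∈ U ∨ l = r) →
    dst y₀ x ≤ t → At F j t d e line y₀ A₀ l →
    (∃ i, i < S ∧ Ser (line l) (fal (exC (line (an i)) (ls i)))
      (5 * d + 2 * t * (n * R / d + 1)) x z A₀) ∨
      ∃ l', l' < l ∧ l' ∈ U ∧ At F j t d e line y₀ A₀ l'

/-- (PDC) the path through a piece in which few variables are resolved in many parts, nothing is
fixed. -/
def T_PDC : Prop :=
  ∀ (n k m : ℕ) (F : Fml n k m) (j t d e s₀ : ℕ), Par F j t d e s₀ → 1 ≤ d →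
    2 * d + e ≤ n →
    ∀ (S r : ℕ) (line : ℕ → Clause n) (rule : ℕ → Rule n), IsRef F S r line rule →
    ∀ (U V : Finset ℕ) (an : ℕ → ℕ) (ls : ℕ → List (Fin n × Bool)),
    Tree S r rule (U ∪ V) an ls → ∀ R h : ℕ,
    (∀ (a i : ℕ) (q : Finset (Fin n)) (l : List (Fin n)), (a = r ∨ a ∈ U) →
      Seg3 rule U V a i q l → (univ.filter fun v => R < l.count v).card ≤ h) →
    ∀ (z y₀ : Fin n → Bool) (l : ℕ), l < S → l ≤ r → (l ∈ U ∨ l = r) →
    At F j t d e line y₀ ∅ l →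
    (∃ i, i < S ∧ ∃ y : Fin n → Bool, Falsified (exC (line (an i)) (ls i)) y ∧
      n ≤ (vs (exC (line (an i)) (ls i))).card + (h + 3 * d) ∧
      (univ.filter fun v => v ∉ vs (line l) ∧ y v ≠ z v).card ≤ e + 2 * t * (n * R / d + 1)) ∨
      ∃ l', l' < l ∧ l' ∈ U ∧ At F j t d e line y₀ ∅ l'

end Pool.Agent.H97.RL
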