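import Pool.Agent.H97.RL.FNM
import Pool.Agent.H97.RL.Targets3
import Pool.Agent.H97.RL.Stmt3Old

/-!
Random formulas and resolution at the scale of SETH (MP_c62aed_lc): paths cut into parts: from the
targets to the theorem.
-/

set_option autoImplicit false

namespace Pool.Agent.H97.RL

open Finset Pool.Agent.H97.RK

theorem pieces3_of (hTRE : T_TRE) (hPDB : T_PDB) (hALZ : T_ALZ) (hCN5 : T_CN5) (hNUM : T_NUM)
    (hBLA : T_BLA) {n k m : ℕ} (F : Fml n k m) (ε : ℝ) (K : ℕ) (hK : 1 ≤ K) (j t d e s₀ : ℕ)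
    (hP : Par F j t d e s₀) (hd : 1 ≤ d) (hde : 2 * d + e ≤ n)
    (hX : 32 * (bl n (5 * d + 2 * t * (n * (k / K) / d + 1) + n / K) : ℝ) ^ 5 ≤
      (2 : ℝ) ^ (ε * n))
    (hC : 4 * (4 ^ n * bl n (e + d)) ≤ 8 ^ n)
    (S r : ℕ) (line : ℕ → Clause n) (rule : ℕ → Rule n) (href : IsRef F S r line rule)
    (U V : Finset ℕ) (hO : Once S rule (U ∪ V))
    (hU : ∀ (a i : ℕ) (q : Finset (Fin n)) (l : List (Fin n)), (a = r ∨ a ∈ U) →
      Seg3 rule U V a i q l → ∀ v, K * l.count v ≤ k) :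
    (2 : ℝ) ^ ((1 - ε) * n) ≤ S *
      (((U.filter fun l => n < K * (line l).card).card : ℝ) + 1) ^ (5 / 2 : ℝ) := by
  classical
  obtain ⟨an, ls, hT⟩ := hTRE n k m F S r line rule href (U ∪ V) hO
  obtain ⟨q, hq⟩ : ∃ q, q = 5 * d + 2 * t * (n * (k / K) / d + 1) := ⟨_, rfl⟩
  rw [← hq] at hX
  obtain ⟨V', hV⟩ : ∃ V', V' = U.filter fun l => l < S ∧ n < K * (vs (line l)).card := ⟨_, rfl⟩
  have h1 : ∀ (x : Fin n → Bool) (A : Finset (Fin n)), A.card + (e + d) ≤ n →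
      ∃ l, (l ∈ V' ∨ l = r) ∧ ∀ z, ∃ i,
        (l, i) ∈ (insert r V') ×ˢ (range S) ∧
        Ser (line l) ((fun _ i => fal (exC (line (an i)) (ls i))) l i) (q + n / K) x z A := by
    intro x A hA
    obtain ⟨l, hl, hlU, h⟩ := hALZ n k m F j t d e s₀ hP S r line href.1 href.2.1 U
      (fun x z A₀ l => ∃ i, i < S ∧ Ser (line l) (fal (exC (line (an i)) (ls i))) q x z A₀)
      (by
        rw [hq]
        refine hPDB n k m F j t d e s₀ hP hd hde S r line rule href U V an ls hT (k / K) ?_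
        intro a i q l ha hl v
        rw [Nat.le_div_iff_mul_le (by omega), mul_comm]
        exact hU a i q l ha hl v) x A hA
    by_cases hlr : l = r
    · refine ⟨l, Or.inr hlr, fun z => ?_⟩
      obtain ⟨i, hi, hs⟩ := h z
      exact ⟨i, mem_product.2 ⟨by rw [hlr]; exact mem_insert_self _ _, mem_range.2 hi⟩,
        Ser_mono _ _ _ _ _ _ _ (Nat.le_add_right _ _) hs⟩
    · have hlU' : l ∈ U := hlU.resolve_right hlr
      by_cases hc : n < K * (vs (line l)).card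
      · have hlV : l ∈ V' := by
          rw [hV, mem_filter]
          exact ⟨hlU', hl, hc⟩
        refine ⟨l, Or.inl hlV, fun z => ?_⟩
        obtain ⟨i, hi, hs⟩ := h z
        exact ⟨i, mem_product.2 ⟨mem_insert_of_mem hlV, mem_range.2 hi⟩,
          Ser_mono _ _ _ _ _ _ _ (Nat.le_add_right _ _) hs⟩
      · have hc' : (vs (line l)).card ≤ n / K := by
          rw [Nat.le_div_iff_mul_le (by omega), mul_comm]
          omega
        refine ⟨r, Or.inr rfl, fun z => ?_⟩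
        obtain ⟨i, hi, hs⟩ := h z
        refine ⟨i, mem_product.2 ⟨mem_insert_self _ _, mem_range.2 hi⟩, ?_⟩
        rw [href.2.1]
        exact Ser_empty _ _ _ _ _ _ _ hc' hs
  have hS1 : 1 ≤ S := by
    have := href.1
    omega
  obtain ⟨M, hM⟩ : ∃ M, M = V'.card := ⟨_, rfl⟩
  have hMU : M ≤ (U.filter fun l => n < K * (line l).card).card := by
    rw [hM]
    refine card_le_card fun i hi => ?_
    rw [hV, mem_filter] at hi
    rw [mem_filter]
    exact ⟨hi.1, hi.2.2.trans_le (Nat.mul_le_mul_left _ (vs_card_le _))⟩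
  have h2 := hNUM n ((M + 1) * S) M (bl n (q + n / K) ^ 2) (bl n (e + d))
    (Nat.one_le_pow _ _ (hBLA.2.2 _ _)) (by nlinarith) hC (by
      intro w₀ hw
      refine (hCN5 n S r (q + n / K) (e + d) w₀ line V' _ _ href.2.1 hw h1).trans ?_
      rw [← hM]
      refine Nat.add_le_add_right (Nat.add_le_add_right (Nat.mul_le_mul_right _ ?_) _) _
      rw [card_product, card_range, hM]
      exact Nat.mul_le_mul_right _ (card_insert_le _ _))
  have h3 := real_of_num n S M _ (bl n (q + n / K)) 5 0 ε hMU (by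
      rw [pow_zero, pow_zero, mul_one, mul_one]
      refine h2.trans (le_of_eq ?_)
      ring) hX
  rw [pow_zero, mul_one] at h3
  exact_mod_cast h3

theorem tradeoff3_of (hTRE : T_TRE) (hPDC : T_PDC) (hALZ : T_ALZ) (hCN1 : T_CN1) {n k m : ℕ} (F : Fml n k m)
    (ε : ℝ) (K : ℕ) (hK : 1 ≤ K) (j t d e s₀ : ℕ) (hP : Par F j t d e s₀) (hd : 1 ≤ d)
    (hde : 2 * d + e ≤ n)
    (hA : (2 : ℝ) ^ (3 * d) * bl n (e + 2 * t * (n * (k / K) / d + 1)) ≤ (2 : ℝ) ^ (ε * n))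
    (S r : ℕ) (line : ℕ → Clause n) (rule : ℕ → Rule n) (href : IsRef F S r line rule)
    (U V : Finset ℕ) (hO : Once S rule (U ∪ V)) (γ ρ : ℝ) (hγ : 0 ≤ γ)
    (hU : ∀ l ∈ U, ((line l).card : ℝ) ≤ γ * n)
    (hρ : ∀ (a i : ℕ) (q : Finset (Fin n)) (l : List (Fin n)), (a = r ∨ a ∈ U) →
      Seg3 rule U V a i q l → ((univ.filter fun v => k < K * l.count v).card : ℝ) ≤ ρ * n) :
    (2 : ℝ) ^ ((1 - γ - ρ - ε) * n) ≤ S := by
  classical
  obtain ⟨an, ls, hT⟩ := hTRE n k m F S r line rule href (U ∪ V) hO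
  have hρ0 : 0 ≤ ρ * n := le_trans (Nat.cast_nonneg _) (hρ r r ∅ [] (Or.inl rfl) Seg3.refl)
  have hγ0 : 0 ≤ γ * n := mul_nonneg hγ (Nat.cast_nonneg _)
  obtain ⟨q, hq⟩ : ∃ q, q = e + 2 * t * (n * (k / K) / d + 1) := ⟨_, rfl⟩
  rw [← hq] at hA
  have h1 : ∀ (a i : ℕ) (q : Finset (Fin n)) (l : List (Fin n)), (a = r ∨ a ∈ U) →
      Seg3 rule U V a i q l → (univ.filter fun v => k / K < l.count v).card ≤ ⌊ρ * n⌋₊ := by
    intro a i q l ha hl
    refine Nat.le_floor ?_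
    refine le_trans (le_of_eq ?_) (hρ a i q l ha hl)
    congr 2
    ext v
    rw [mem_filter, mem_filter, Nat.div_lt_iff_lt_mul (by omega), mul_comm]
  obtain ⟨l, hl, hlU, hG⟩ := hALZ n k m F j t d e s₀ hP S r line href.1 href.2.1 U
    (fun _ z A₀ l => A₀ = ∅ → ∃ i, i < S ∧ ∃ y : Fin n → Bool,
      Falsified (exC (line (an i)) (ls i)) y ∧
      n ≤ (vs (exC (line (an i)) (ls i))).card + (⌊ρ * n⌋₊ + 3 * d) ∧
      (univ.filter fun v => v ∉ vs (line l) ∧ y v ≠ z v).card ≤ q)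
    (by
      intro x z y₀ A₀ l hl hlr hlU _ hAt
      by_cases hA₀ : A₀ = ∅
      · subst hA₀
        rcases hPDC n k m F j t d e s₀ hP hd hde S r line rule href U V an ls hT (k / K) ⌊ρ * n⌋₊
          h1 z y₀ l hl hlr hlU hAt with h | h
        · rw [← hq] at h
          exact Or.inl fun _ => h
        · exact Or.inr h
      · exact Or.inl fun h => absurd h hA₀) (fun _ => true) ∅ (by rw [card_empty]; omega)
  have hw : ((vs (line l)).card : ℝ) ≤ γ * n := by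
    rcases hlU with h | h
    · refine le_trans ?_ (hU l h)
      exact_mod_cast vs_card_le _
    · rw [h, href.2.1]
      simpa [vs] using hγ0
  obtain ⟨w, hwdef⟩ : ∃ w, w = (vs (line l)).card := ⟨_, rfl⟩
  rw [← hwdef] at hw
  have h2 := hCN1 n S (w + (⌊ρ * n⌋₊ + 3 * d)) q
    (fun i => (exC (line (an i)) (ls i)).filter fun p => p.1 ∉ vs (line l)) (by
      intro x
      obtain ⟨i, hi, y, hy1, hy2, hy3⟩ := hG x rfl
      refine ⟨i, hi, fun v => if v ∈ vs (line l) then x v else y v, ?_, ?_, ?_⟩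
      · intro p hp
        rw [mem_filter] at hp
        simp only [if_neg hp.2]
        exact hy1 p hp.1
      · have h3 : vs (exC (line (an i)) (ls i)) \ vs (line l) ⊆
            vs ((exC (line (an i)) (ls i)).filter fun p => p.1 ∉ vs (line l)) := by
          intro v hv
          rw [mem_sdiff] at hv
          obtain ⟨hv1, hv2⟩ := hv
          unfold vs at hv1
          obtain ⟨p, hp, hpv⟩ := mem_image.1 hv1
          unfold vs
          refine mem_image.2 ⟨p, mem_filter.2 ⟨hp, ?_⟩, hpv⟩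
          rw [hpv]
          exact hv2
        have h4 := card_le_card h3
        have h5 := le_card_sdiff (vs (line l)) (vs (exC (line (an i)) (ls i)))
        omega
      · refine le_trans (card_le_card fun v hv => ?_) hy3
        rw [mem_filter] at hv ⊢
        by_cases hv' : v ∈ vs (line l)
        · simp [hv'] at hv
        · simp only [if_neg hv'] at hv
          exact ⟨mem_univ _, hv', hv.2⟩)
  have h3 : (2 : ℝ) ^ n ≤ S * ((2 : ℝ) ^ (w + (⌊ρ * n⌋₊ + 3 * d)) * bl n q) := by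
    exact_mod_cast h2
  have h4 : (2 : ℝ) ^ (⌊ρ * n⌋₊) ≤ (2 : ℝ) ^ (ρ * n) := by
    rw [← Real.rpow_natCast]
    exact Real.rpow_le_rpow_of_exponent_le (by norm_num) (Nat.floor_le hρ0)
  have h4' : (2 : ℝ) ^ w ≤ (2 : ℝ) ^ (γ * n) := by
    rw [← Real.rpow_natCast]
    exact Real.rpow_le_rpow_of_exponent_le (by norm_num) hw
  have h5 : (2 : ℝ) ^ n ≤ S * ((2 : ℝ) ^ (γ * n) * ((2 : ℝ) ^ (ρ * n) * (2 : ℝ) ^ (ε * n))) := by
    refine h3.trans ?_
    rw [pow_add, pow_add, mul_assoc, mul_assoc]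
    refine mul_le_mul_of_nonneg_left ?_ (Nat.cast_nonneg _)
    exact mul_le_mul h4' (mul_le_mul h4 hA (by positivity) (by positivity)) (by positivity)
      (by positivity)
  have h6 : (2 : ℝ) ^ ((1 - γ - ρ - ε) * n) * ((2 : ℝ) ^ (γ * n) * ((2 : ℝ) ^ (ρ * n) *
      (2 : ℝ) ^ (ε * n))) = (2 : ℝ) ^ n := by
    rw [← Real.rpow_add (by norm_num), ← Real.rpow_add (by norm_num),
      ← Real.rpow_add (by norm_num), ← Real.rpow_natCast]
    congr 1
    ring
  rw [← h6] at h5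
  exact le_of_mul_le_mul_right h5 (by positivity)

theorem pf_FN3 (hCN1 : T_CN1) (hTAU : T_TAU) (hMED : T_MED) (hCN2 : T_CN2)
    (hPX1 : T_PX1) (hPX2 : T_PX2) (hPSA : T_PSA) (hNX1 : T_NX1) (hNX2 : T_NX2) (hPRM : T_PRM)
    (hTRE : T_TRE) (hPCA : T_PCA) (hPDB : T_PDB) (hPDC : T_PDC) (hALZ : T_ALZ) (hCN5 : T_CN5)
    (hCN6 : T_CN6) (hNUM : T_NUM) (hNU2 : T_NU2) (hBLA : T_BLA) (hBLB : T_BLB) : Main3 := by
  classical
  intro ε hε
  have hε1 : 0 < min ε 1 / 100 := div_pos (lt_min hε one_pos) (by norm_num)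
  have hε2 : min ε 1 / 100 ≤ 1 := by
    have := min_le_right ε 1
    linarith
  have hε3 : min ε 1 / 100 ≤ ε := by
    have := min_le_left ε 1
    linarith
  obtain ⟨δ, κ, hδ, hδ1, hκ, hκ1, hprm⟩ := hPRM (min ε 1 / 100) hε1 hε2
  obtain ⟨σ, hσ, hσ1, K₁, hnx1⟩ := hNX1 κ hκ hκ1
  obtain ⟨K₂, hK₂, hprm⟩ := hprm σ hσ
  obtain ⟨K₃, hK₃, hnx2⟩ := hNX2 δ hδ hδ1
  obtain ⟨K₄, hK₄, hnsb⟩ := pf_NSB ε hε
  obtain ⟨ξ, hξ, hblb⟩ := hBLB (min ε 1 / 100) hε1
  obtain ⟨K, hKdef⟩ : ∃ K : ℕ, K = K₁ + K₂ + K₃ + K₄ + ⌈1 / ξ⌉₊ + 3 := ⟨_, rfl⟩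
  have hK1 : 1 ≤ K := by omega
  have hKξ : 1 / ξ ≤ K := by
    refine (Nat.le_ceil _).trans ?_
    have : ⌈1 / ξ⌉₊ ≤ K := by omega
    exact_mod_cast this
  refine ⟨K, hK1, fun k n m hKk hKn hm => ?_⟩
  have hkn : k ≤ n := (Nat.le_mul_of_pos_left k hK1).trans hKn
  have hKn' : K ≤ n := (Nat.le_mul_of_pos_right K (by omega)).trans hKn
  have hn1 : 1 ≤ n := by omega
  have hn0 : (0 : ℝ) < n := by exact_mod_cast hn1
  obtain ⟨j, t, d, e, hj1, hj2, ht1, hts, hte, hje, hed, hd1, hde, hdn, hkt, hA, hB, hC⟩ :=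
    hprm K k n (by omega) hKk hKn
  have hs₀ : ⌊σ * n⌋₊ ≤ n := by
    refine Nat.floor_le_of_le ?_
    nlinarith
  have hmon : (2 : ℝ) ^ (min ε 1 / 100 * n) ≤ (2 : ℝ) ^ (ε * n) :=
    Real.rpow_le_rpow_of_exponent_le (by norm_num) (mul_le_mul_of_nonneg_right hε3 hn0.le)
  have hmon1 : (2 : ℝ) ^ (min ε 1 * n) ≤ (2 : ℝ) ^ (ε * n) :=
    Real.rpow_le_rpow_of_exponent_le (by norm_num)
      (mul_le_mul_of_nonneg_right (min_le_left _ _) hn0.le)
  have hB' : 2 * (bl n (d + 2 * t) : ℝ) * bl n t ≤ (2 : ℝ) ^ (ε * n) := hB.trans hmon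
  have hK0 : (0 : ℝ) < K := by exact_mod_cast hK1
  have hv : (bl n (n / K) : ℝ) ≤ (2 : ℝ) ^ (min ε 1 / 100 * n) := by
    refine hblb n (n / K) ?_
    have h1 : ((n / K : ℕ) : ℝ) ≤ n / K := Nat.cast_div_le
    refine h1.trans ?_
    rw [div_le_iff₀ hK0]
    have h2 : 1 ≤ ξ * K := by
      rw [div_le_iff₀ hξ] at hKξ
      linarith
    nlinarith
  have hX := num_X hBLA n d e t _ (n / K) (min ε 1) (by omega) hA hB hv
  have hC4 := num_four n _ (by omega) hC
  have hm4 : m ≤ 4 ^ k * n := by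
    have h1 : (2 : ℝ) ^ ((1 + 1 / (K : ℝ)) * k) ≤ 4 ^ k := by
      have h2 : (4 : ℝ) ^ k = (2 : ℝ) ^ ((2 : ℝ) * k) := by
        rw [Real.rpow_mul (by norm_num), Real.rpow_natCast]
        norm_num
      rw [h2]
      refine Real.rpow_le_rpow_of_exponent_le (by norm_num) ?_
      have h3 : 1 / (K : ℝ) ≤ 1 := by
        rw [div_le_one (by exact_mod_cast hK1)]
        exact_mod_cast hK1
      have h4 : (0 : ℝ) ≤ k := Nat.cast_nonneg _
      nlinarith
    have h2 : (m : ℝ) ≤ 4 ^ k * n := hm.trans (mul_le_mul_of_nonneg_right h1 hn0.le)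
    exact_mod_cast h2
  have hx1 := hnx1 k n m j (by omega) (by omega) hm4 hj1 hj2.le
  have hx2 := hnx2 K k n m t d e (by omega) (by omega) (by omega) hm hdn (by omega) hed hkt
  have hx3 := hnsb k n m (by omega)
  have hhard : ∀ F : Fml n k m, X1 F j ⌊σ * n⌋₊ → X2 F t d e →
      ((Real.log 2 + ε) * 2 ^ k * n ≤ m → ∀ z, ∃ c, Falsified (cls F c) z) → Hd3 ε K F := by
    intro F h1 h2 h3
    have hP : Par F j t d e ⌊σ * n⌋₊ := ⟨h1, h2, hj2, ht1, hts, hte, hje, by omega⟩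
    exact ⟨h3, tradeoff3_of hTRE hPDC hALZ hCN1 F ε K hK1 j t d e _ hP hd1 hde
        (hX.2.2.trans hmon1),
      lemmas_of hTRE hPCA hALZ hCN6 hNU2 hBLA F ε j t d e _ hP (hX.1.trans hmon1) hC4,
      pieces3_of hTRE hPDB hALZ hCN5 hNUM hBLA F ε K hK1 j t d e _ hP hd1 hde
        (hX.2.1.trans hmon1) hC4,
      general_of hTAU hMED hCN2 F ε j t d e _ hP hB' hC⟩
  constructor
  · have hN : ((Nat.card (Fml n k m) : ℕ) : ℝ) = ((2 * n) ^ k : ℝ) ^ m := by
      rw [Nat.card_eq_fintype_card, Fintype.card_fun, Fintype.card_fun, Fintype.card_prod,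
        Fintype.card_fin, Fintype.card_fin, Fintype.card_fin, Fintype.card_bool]
      push_cast
      ring
    rw [hN]
    have hb : ∀ a : ℝ, ∀ b : ℝ, a ≤ b * ((2 * n) ^ k : ℝ) ^ m → b ≤ 1 / (4 * n) →
        a ≤ 1 / (4 * n) * ((2 * n) ^ k : ℝ) ^ m := fun a b h1 h2 =>
      h1.trans (mul_le_mul_of_nonneg_right h2 (by positivity))
    have h1 := count_fin (α := Fml n k m) (fun _ => True) (fun F => Hd3 ε K F)
      (fun F => X1 F j ⌊σ * n⌋₊) (fun F => X2 F t d e)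
      (fun F => (Real.log 2 + ε) * 2 ^ k * n ≤ m → ∀ z, ∃ c, Falsified (cls F c) z) n hn1
      (((2 * n) ^ k : ℝ) ^ m) (by positivity) (fun F _ => hhard F)
      (hb _ _ ((natcard_le _ _ fun _ h => h.2).trans (hPX1 n k m j _ hn1 hs₀)) hx1)
      (hb _ _ ((natcard_le _ _ fun _ h => h.2).trans
        (hPX2 n k m t d e hn1 (by omega) (by omega))) hx2) (by
        by_cases hmm : (Real.log 2 + ε) * 2 ^ k * n ≤ m
        · exact hb _ _ ((natcard_le _ _ fun _ h h' => h.2 fun _ => h').trans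
            (hPSA n k m hn1)) (hx3 hmm)
        · refine le_trans (le_of_eq (natcard_zero _ fun F h => h.2 fun h' => absurd h' hmm)) ?_
          positivity)
    refine le_trans (le_of_eq ?_) h1
    congr 2
    exact Nat.card_congr (Equiv.subtypeEquivRight fun F => by simp)
  · have hN : ((Nat.card {F : Fml n k m // Dist F} : ℕ) : ℝ) = ((Om n k).card : ℝ) ^ m := by
      rw [Nat.card_eq_fintype_card, Fintype.card_subtype]
      have : (univ.filter fun F : Fml n k m => Dist F) =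
          Fintype.piFinset fun _ : Fin m => Om n k := by
        ext F
        rw [mem_filter, Fintype.mem_piFinset, Dist_iff]
        simp
      rw [this, Fintype.card_piFinset_const, Nat.cast_pow]
    rw [hN]
    have hb : ∀ a : ℝ, ∀ b : ℝ, a ≤ b * ((Om n k).card : ℝ) ^ m → b ≤ 1 / (4 * n) →
        a ≤ 1 / (4 * n) * ((Om n k).card : ℝ) ^ m := fun a b h1 h2 =>
      h1.trans (mul_le_mul_of_nonneg_right h2 (by positivity))
    exact count_fin (α := Fml n k m) (fun F => Dist F) (fun F => Hd3 ε K F)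
      (fun F => X1 F j ⌊σ * n⌋₊) (fun F => X2 F t d e)
      (fun F => (Real.log 2 + ε) * 2 ^ k * n ≤ m → ∀ z, ∃ c, Falsified (cls F c) z) n hn1
      (((Om n k).card : ℝ) ^ m) (by positivity) (fun F _ => hhard F)
      (hb _ _ ((natcard_le _ _ fun _ h => h).trans (pf_DX1 n k m j _ hn1 hkn hs₀)) hx1)
      (hb _ _ ((natcard_le _ _ fun _ h => h).trans
        (pf_DX2 n k m t d e hn1 hkn (by omega) (by omega))) hx2) (by
        by_cases hmm : (Real.log 2 + ε) * 2 ^ k * n ≤ m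
        · exact hb _ _ ((natcard_le _ _ fun _ h => ⟨h.1, fun h' => h.2 fun _ => h'⟩).trans
            (pf_DSA n k m)) (hx3 hmm)
        · refine le_trans (le_of_eq (natcard_zero _ fun F h => h.2 fun h' => absurd h' hmm)) ?_
          positivity)

end Pool.Agent.H97.RL
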