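import Pool.Agent.H97.RL.Stmt3

/-!
Random formulas and resolution at the scale of SETH (MP_c62aed_lc): the final statement.
-/

set_option autoImplicit false

namespace Pool.Agent.H97.RL

open Finset Pool.Agent.H97.RK

/-- `F` is unsatisfiable if it has at least `(log 2 + ε) 2 ^ k n` clauses. Let a resolution
refutation of `F` with `S` lines be given, and sets `U`, `V` of lines such that every line outside
`U` and `V` which is not obtained from a clause of `F` is used at most once. Consider the paths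
which start in the empty line or in a line of `U` and contain no line of `U` after their beginning,
cut into parts at the lines of `V`.

`tradeoff`: if at most `2 ^ (n / K)` lines in `U` have more than `γ n` literals and on each of these
paths at most `ρ n` variables are resolved in more than `k / K` parts, then
`2 ^ ((1 - γ - ρ - ε) n) ≤ S`.

`lemmas`: if `V` is empty and at most `M` lines in `U` have more than `w` literals, then
`2 ^ ((1 - ε) n) ≤ S (3 / 2) ^ w (M + 1) ^ (3 / 2)`.

`pieces`: if on each of these paths every variable is resolved in at most `k / K` parts and at most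
`M` lines in `U` have more than `n / K` literals, then `2 ^ ((1 - ε) n) ≤ S (M + 1) ^ (5 / 2)`.

`general`: `(3 / 2) ^ n 2 ^ (- ε n) ≤ S`. -/
structure Hd4 {n k m : ℕ} (ε : ℝ) (K : ℕ) (F : Fml n k m) : Prop where
  unsat : (Real.log 2 + ε) * 2 ^ k * n ≤ m → ∀ z, ∃ c, Falsified (cls F c) z
  tradeoff : ∀ (S r : ℕ) (line : ℕ → Clause n) (rule : ℕ → Rule n), IsRef F S r line rule →
    ∀ U V : Finset ℕ, Once S rule (U ∪ V) → ∀ γ ρ : ℝ, 0 ≤ γ →
    ((U.filter fun l => γ * n < (line l).card).card : ℝ) ≤ (2 : ℝ) ^ ((n : ℝ) / K) →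
    (∀ (a i : ℕ) (q : Finset (Fin n)) (l : List (Fin n)), (a = r ∨ a ∈ U) →
      Seg3 rule U V a i q l → ((univ.filter fun v => k < K * l.count v).card : ℝ) ≤ ρ * n) →
    (2 : ℝ) ^ ((1 - γ - ρ - ε) * n) ≤ S
  lemmas : ∀ (S r : ℕ) (line : ℕ → Clause n) (rule : ℕ → Rule n), IsRef F S r line rule →
    ∀ U : Finset ℕ, Once S rule U → ∀ w : ℕ,
    (2 : ℝ) ^ ((1 - ε) * n) ≤ S * (3 / 2 : ℝ) ^ w *
      (((U.filter fun l => w < (line l).card).card : ℝ) + 1) ^ (3 / 2 : ℝ)
  pieces : ∀ (S r : ℕ) (line : ℕ → Clause n) (rule : ℕ → Rule n), IsRef F S r line rule →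
    ∀ U V : Finset ℕ, Once S rule (U ∪ V) →
    (∀ (a i : ℕ) (q : Finset (Fin n)) (l : List (Fin n)), (a = r ∨ a ∈ U) →
      Seg3 rule U V a i q l → ∀ v, K * l.count v ≤ k) →
    (2 : ℝ) ^ ((1 - ε) * n) ≤ S *
      (((U.filter fun l => n < K * (line l).card).card : ℝ) + 1) ^ (5 / 2 : ℝ)
  general : ∀ (S r : ℕ) (line : ℕ → Clause n) (rule : ℕ → Rule n), IsRef F S r line rule →
    (3 / 2 : ℝ) ^ n * (2 : ℝ) ^ (-(ε * n)) ≤ S

/-- Among the formulas with `m` clauses of `k` literals, at most the fraction `1 / n` is not hard,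
and the same among the formulas with `m` clauses of `k` literals with distinct variables. -/
def Main4 : Prop :=
  ∀ ε : ℝ, 0 < ε → ∃ K : ℕ, 1 ≤ K ∧ ∀ k n m : ℕ, K ≤ k → K * k ≤ n →
    (m : ℝ) ≤ (2 : ℝ) ^ ((1 + 1 / (K : ℝ)) * k) * n →
    (n : ℝ) * Nat.card {F : Fml n k m // ¬ Hd4 ε K F} ≤ Nat.card (Fml n k m) ∧
    (n : ℝ) * Nat.card {F : Fml n k m // Dist F ∧ ¬ Hd4 ε K F} ≤
      Nat.card {F : Fml n k m // Dist F}

end Pool.Agent.H97.RL
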