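import Pool.Agent.H97.RL.FN3
import Pool.Agent.H97.RL.Targets4
import Pool.Agent.H97.RL.Stmt4

/-!
Random formulas and resolution at the scale of SETH (MP_c62aed_lc): few wide lines in `U`.
-/

set_option autoImplicit false

namespace Pool.Agent.H97.RL

open Finset Pool.Agent.H97.RK

theorem two_pow_le_bl (n a : ℕ) (h : a ≤ n) : 2 ^ a ≤ bl n a := by
  rw [← Nat.sum_range_choose]
  unfold bl
  exact sum_le_sum fun i _ => Nat.choose_le_choose i h

theorem cnx_num (n t w Q M K : ℕ) (ε : ℝ) (h0 : 0 < ε) (h1 : ε ≤ 1) (hQ1 : 1 ≤ Q)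
    (hQ2 : (Q : ℝ) ≤ 17 / ε) (hn : 1 ≤ n) (hK : 1000 / ε ^ 2 ≤ K)
    (hM : (M : ℝ) ≤ (2 : ℝ) ^ ((n : ℝ) / K))
    (hb : 2 * (bl n t : ℝ) ≤ (2 : ℝ) ^ (ε ^ 2 / 1000 * n)) (ht : (t : ℝ) ≤ ε ^ 2 / 1000 * n)
    (hw : ε / 8 * n ≤ w) (hwn : w ≤ n) :
    t ≤ w ∧
    2 * (M * (bl n t * ((2 * Q - 1) ^ (w - t) * (2 * Q) ^ (n - (w - t))))) < (2 * Q) ^ n := by
  have hn' : (1 : ℝ) ≤ n := by exact_mod_cast hn
  have hQ' : (1 : ℝ) ≤ Q := by exact_mod_cast hQ1
  have hε2 : ε ^ 2 ≤ ε := by nlinarith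
  have htw : (t : ℝ) ≤ w := by
    have h2 : ε ^ 2 / 1000 * n ≤ ε / 8 * n := by
      refine mul_le_mul_of_nonneg_right ?_ (by positivity)
      linarith
    linarith
  have htw' : t ≤ w := by exact_mod_cast htw
  refine ⟨htw', ?_⟩
  obtain ⟨s, hs⟩ : ∃ s, s = w - t := ⟨_, rfl⟩
  rw [← hs]
  have hsn : s ≤ n := by omega
  have hsr : (s : ℝ) = w - t := by
    rw [hs, Nat.cast_sub htw']
  have h3 : (2 * Q) ^ n = (2 * Q) ^ s * (2 * Q) ^ (n - s) := by
    rw [← pow_add]
    congr 1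
    omega
  have h4 : 2 * M * bl n t * (2 * Q - 1) ^ s < (2 * Q) ^ s := by
    have h5 : (2 * (M : ℝ) * bl n t) * ((2 * Q - 1 : ℕ) : ℝ) ^ s < ((2 * Q : ℕ) : ℝ) ^ s := by
      have h6 : ((2 * Q - 1 : ℕ) : ℝ) = (2 * Q) * (1 - 1 / (2 * Q)) := by
        rw [Nat.cast_sub (by omega)]
        push_cast
        field_simp
      have h7 : ((2 * Q : ℕ) : ℝ) = 2 * Q := by push_cast; ring
      rw [h6, h7, mul_pow]
      have h8 : (1 - 1 / (2 * (Q : ℝ))) ^ s ≤ Real.exp (-(s / (2 * Q))) := by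
        have h9 : 1 - 1 / (2 * (Q : ℝ)) ≤ Real.exp (-(1 / (2 * Q))) := by
          have := Real.add_one_le_exp (-(1 / (2 * (Q : ℝ))))
          linarith
        have h10 : 0 ≤ 1 - 1 / (2 * (Q : ℝ)) := by
          have : 1 / (2 * (Q : ℝ)) ≤ 1 := by
            rw [div_le_one (by positivity)]
            linarith
          linarith
        refine (pow_le_pow_left₀ h10 h9 s).trans (le_of_eq ?_)
        rw [← Real.exp_nat_mul]
        congr 1
        ring
      have h11 : 2 * (M : ℝ) * bl n t ≤ Real.exp (2 * (ε ^ 2 / 1000 * n)) := by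
        have h12 : (2 : ℝ) ≤ Real.exp 1 := by
          have := Real.add_one_le_exp (1 : ℝ)
          linarith
        have h13 : ∀ a : ℝ, 0 ≤ a → (2 : ℝ) ^ a ≤ Real.exp a := by
          intro a ha
          refine (Real.rpow_le_rpow (by norm_num) h12 ha).trans (le_of_eq ?_)
          rw [← Real.exp_mul, one_mul]
        have h14 : 2 * (bl n t : ℝ) ≤ Real.exp (ε ^ 2 / 1000 * n) :=
          hb.trans (h13 _ (by positivity))
        have hK0 : (0 : ℝ) < K := lt_of_lt_of_le (by positivity) hK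
        have h15 : (M : ℝ) ≤ Real.exp (ε ^ 2 / 1000 * n) := by
          refine (hM.trans (h13 _ (by positivity))).trans (Real.exp_le_exp.2 ?_)
          rw [div_le_iff₀ hK0]
          have h16 : 1 ≤ ε ^ 2 / 1000 * K := by
            rw [div_le_iff₀ (by positivity)] at hK
            linarith
          nlinarith
        calc 2 * (M : ℝ) * bl n t = M * (2 * bl n t) := by ring
          _ ≤ Real.exp (ε ^ 2 / 1000 * n) * Real.exp (ε ^ 2 / 1000 * n) :=
            mul_le_mul h15 h14 (by positivity) (by positivity)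
          _ = Real.exp (2 * (ε ^ 2 / 1000 * n)) := by
            rw [← Real.exp_add]
            congr 1
            ring
      have h17 : 2 * (ε ^ 2 / 1000 * n) < s / (2 * Q) := by
        have h18 : 62 / 500 * ε * n ≤ s := by
          rw [hsr]
          have : ε ^ 2 / 1000 * n ≤ ε / 1000 * n :=
            mul_le_mul_of_nonneg_right (by linarith) (by positivity)
          linarith
        have h19 : (Q : ℝ) * ε ≤ 17 := by
          rw [le_div_iff₀ h0] at hQ2
          exact hQ2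
        rw [lt_div_iff₀ (by positivity)]
        have h20 : 2 * (ε ^ 2 / 1000 * n) * (2 * Q) = (4 / 1000 * ε * n) * (Q * ε) := by ring
        rw [h20]
        have h21 : (4 / 1000 * ε * n) * (Q * ε) ≤ (4 / 1000 * ε * n) * 17 :=
          mul_le_mul_of_nonneg_left h19 (by positivity)
        have h22 : 0 < ε * n := by positivity
        nlinarith
      have h23 : (2 * (M : ℝ) * bl n t) * ((2 * Q : ℝ) ^ s * (1 - 1 / (2 * (Q : ℝ))) ^ s) ≤
          (2 * Q : ℝ) ^ s * (Real.exp (2 * (ε ^ 2 / 1000 * n)) * Real.exp (-(s / (2 * Q)))) := by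
        calc (2 * (M : ℝ) * bl n t) * ((2 * Q : ℝ) ^ s * (1 - 1 / (2 * (Q : ℝ))) ^ s)
            ≤ (2 * (M : ℝ) * bl n t) * ((2 * Q : ℝ) ^ s * Real.exp (-(s / (2 * Q)))) :=
              mul_le_mul_of_nonneg_left (mul_le_mul_of_nonneg_left h8 (by positivity))
                (by positivity)
          _ ≤ Real.exp (2 * (ε ^ 2 / 1000 * n)) *
              ((2 * Q : ℝ) ^ s * Real.exp (-(s / (2 * Q)))) :=
              mul_le_mul_of_nonneg_right h11 (by positivity)
          _ = _ := by ring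
      refine h23.trans_lt ?_
      rw [← Real.exp_add]
      have h24 : Real.exp (2 * (ε ^ 2 / 1000 * n) + -(s / (2 * Q))) < 1 := by
        rw [Real.exp_lt_one_iff]
        linarith
      have h25 : (0 : ℝ) < (2 * Q : ℝ) ^ s := by positivity
      nlinarith
    exact_mod_cast h5
  rw [h3]
  have h5 : 0 < (2 * Q) ^ (n - s) := Nat.pow_pos (by omega)
  calc 2 * (M * (bl n t * ((2 * Q - 1) ^ s * (2 * Q) ^ (n - s)))) =
        2 * M * bl n t * (2 * Q - 1) ^ s * (2 * Q) ^ (n - s) := by ring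
    _ < (2 * Q) ^ s * (2 * Q) ^ (n - s) := Nat.mul_lt_mul_of_pos_right h4 h5

end Pool.Agent.H97.RL
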