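import Pool.Agent.H97.RL.FN4a

/-!
Random formulas and resolution at the scale of SETH (MP_c62aed_lc): few wide lines in `U`: the
inequality.
-/

set_option autoImplicit false

namespace Pool.Agent.H97.RL

open Finset Pool.Agent.H97.RK

theorem tradeoff4_of (hTRE : T_TRE) (hPDE : T_PDE) (hALZ : T_ALZ) (hCN1 : T_CN1) (hCNX : T_CNX)
    {n k m : ℕ} (F : Fml n k m) (ε ε₁ : ℝ) (hε₁ : 0 < ε₁) (hε₁1 : ε₁ ≤ 1) (hε : ε₁ ≤ ε)
    (K : ℕ) (hK : 1 ≤ K) (hKε : 1000 / ε₁ ^ 2 ≤ K) (j t d e s₀ : ℕ) (hP : Par F j t d e s₀)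
    (hd : 1 ≤ d) (hde : 2 * d + e ≤ n) (hed : 2 * e ≤ d)
    (hA : (2 : ℝ) ^ (3 * d) * bl n (e + 2 * t * (n * (k / K) / d + 1)) ≤
      (2 : ℝ) ^ (ε₁ / 10 * n))
    (hb : 2 * (bl n t : ℝ) ≤ (2 : ℝ) ^ (ε₁ ^ 2 / 1000 * n))
    (S r : ℕ) (line : ℕ → Clause n) (rule : ℕ → Rule n) (href : IsRef F S r line rule)
    (U V : Finset ℕ) (hO : Once S rule (U ∪ V)) (γ ρ : ℝ) (hγ : 0 ≤ γ)
    (hU : ((U.filter fun l => γ * n < (line l).card).card : ℝ) ≤ (2 : ℝ) ^ ((n : ℝ) / K))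
    (hρ : ∀ (a i : ℕ) (q : Finset (Fin n)) (l : List (Fin n)), (a = r ∨ a ∈ U) →
      Seg3 rule U V a i q l → ((univ.filter fun v => k < K * l.count v).card : ℝ) ≤ ρ * n) :
    (2 : ℝ) ^ ((1 - γ - ρ - ε) * n) ≤ S := by
  classical
  obtain ⟨an, ls, hT⟩ := hTRE n k m F S r line rule href (U ∪ V) hO
  have hn1 : 1 ≤ n := by omega
  have hn0 : (0 : ℝ) < n := by exact_mod_cast hn1
  have hρ0 : 0 ≤ ρ * n := le_trans (Nat.cast_nonneg _) (hρ r r ∅ [] (Or.inl rfl) Seg3.refl)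
  have hS1 : (1 : ℝ) ≤ S := by
    have := href.1
    have h1 : 1 ≤ S := by omega
    exact_mod_cast h1
  by_cases hγ1 : 1 ≤ γ
  · refine le_trans ?_ hS1
    refine Real.rpow_le_one_of_one_le_of_nonpos (by norm_num) ?_
    have h1 : 0 ≤ (γ - 1) * n := mul_nonneg (by linarith) hn0.le
    have h2 : 0 ≤ ε * n := mul_nonneg (by linarith) hn0.le
    nlinarith
  push Not at hγ1
  -- the parameters
  obtain ⟨γ', hγ'⟩ : ∃ γ', γ' = max γ (ε₁ / 8) := ⟨_, rfl⟩
  have hγ'1 : γ' < 1 := by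
    rw [hγ']
    exact max_lt hγ1 (by linarith)
  have hγ'0 : 0 ≤ γ' := by
    rw [hγ']
    exact le_max_of_le_left hγ
  have hγγ' : γ ≤ γ' := by
    rw [hγ']
    exact le_max_left _ _
  have hγ'8 : ε₁ / 8 ≤ γ' := by
    rw [hγ']
    exact le_max_right _ _
  have hγ'u : γ' ≤ γ + ε₁ / 8 := by
    rw [hγ']
    exact max_le (by linarith) (by linarith)
  obtain ⟨w, hw⟩ : ∃ w, w = ⌊γ' * n⌋₊ + 1 := ⟨_, rfl⟩
  have hwγ : γ' * n < w := by
    rw [hw]
    push_cast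
    exact Nat.lt_floor_add_one _
  have hwn : w ≤ n := by
    rw [hw]
    have : ⌊γ' * n⌋₊ < n := by
      rw [Nat.floor_lt (by positivity)]
      nlinarith
    omega
  obtain ⟨Q, hQ⟩ : ∃ Q, Q = ⌈16 / ε₁⌉₊ := ⟨_, rfl⟩
  have hQ1 : 16 / ε₁ ≤ Q := by
    rw [hQ]
    exact Nat.le_ceil _
  have hQ2 : (Q : ℝ) ≤ 17 / ε₁ := by
    have h1 : (Q : ℝ) < 16 / ε₁ + 1 := by
      rw [hQ]
      exact Nat.ceil_lt_add_one (by positivity)
    have h2 : 1 ≤ 1 / ε₁ := by
      rw [le_div_iff₀ hε₁]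
      linarith
    have h3 : 17 / ε₁ = 16 / ε₁ + 1 / ε₁ := by ring
    linarith
  have hQ16 : 16 ≤ Q := by
    have h1 : (16 : ℝ) ≤ 16 / ε₁ := by
      rw [le_div_iff₀ hε₁]
      nlinarith
    have h2 : (16 : ℝ) ≤ Q := h1.trans hQ1
    exact_mod_cast h2
  have ht : (t : ℝ) ≤ ε₁ ^ 2 / 1000 * n := by
    have h1 : t ≤ n := by
      have := hP.te
      omega
    have h2 : ((2 : ℝ)) ^ (t : ℝ) ≤ (2 : ℝ) ^ (ε₁ ^ 2 / 1000 * n) := by
      rw [Real.rpow_natCast]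
      have h3 : ((2 : ℝ)) ^ t ≤ bl n t := by exact_mod_cast two_pow_le_bl n t h1
      have h4 : (0 : ℝ) ≤ bl n t := Nat.cast_nonneg _
      linarith
    exact (Real.rpow_le_rpow_left_iff (by norm_num)).1 h2
  -- the wide lines
  obtain ⟨Uw, hUw⟩ : ∃ Uw, Uw = U.filter fun l => l < S ∧ w ≤ (vs (line l)).card := ⟨_, rfl⟩
  have hM : (Uw.card : ℝ) ≤ (2 : ℝ) ^ ((n : ℝ) / K) := by
    refine le_trans (Nat.cast_le.2 (card_le_card fun l hl => ?_)) hU
    rw [hUw, mem_filter] at hl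
    rw [mem_filter]
    refine ⟨hl.1, ?_⟩
    have h1 : (w : ℝ) ≤ (line l).card := by
      exact_mod_cast hl.2.2.trans (vs_card_le _)
    have h2 : γ * n ≤ γ' * n := mul_le_mul_of_nonneg_right hγγ' hn0.le
    linarith
  obtain ⟨htw, hnum⟩ := cnx_num n t w Q Uw.card K ε₁ hε₁ hε₁1 (by omega) hQ2 hn1 hKε hM hb ht
    ((mul_le_mul_of_nonneg_right hγ'8 hn0.le).trans hwγ.le) hwn
  obtain ⟨x, A, hAQ, hxA⟩ := hCNX n t w Q line Uw (by omega) htw hwn (fun l hl => by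
    rw [hUw, mem_filter] at hl
    exact hl.2.2) hnum
  -- the minimal line
  obtain ⟨q, hq⟩ : ∃ q, q = e + 2 * t * (n * (k / K) / d + 1) := ⟨_, rfl⟩
  rw [← hq] at hA
  have h1 : ∀ (a i : ℕ) (q : Finset (Fin n)) (l : List (Fin n)), (a = r ∨ a ∈ U) →
      Seg3 rule U V a i q l → (univ.filter fun v => k / K < l.count v).card ≤ ⌊ρ * n⌋₊ := by
    intro a i q l ha hl
    refine Nat.le_floor ?_
    refine le_trans (le_of_eq ?_) (hρ a i q l ha hl)
    congr 2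
    ext v
    rw [mem_filter, mem_filter, Nat.div_lt_iff_lt_mul (by omega), mul_comm]
  obtain ⟨l, hl, hlU, hG⟩ := hALZ n k m F j t d e s₀ hP S r line href.1 href.2.1 U
    (fun x z A₀ l => (∃ y : Fin n → Bool, Falsified (line l) y ∧
      (A₀.filter fun v => y v ≠ x v).card ≤ t) ∧ ∃ i, i < S ∧ ∃ y : Fin n → Bool,
      Falsified (exC (line (an i)) (ls i)) y ∧
      n ≤ (A₀ ∪ vs (exC (line (an i)) (ls i))).card + (⌊ρ * n⌋₊ + 3 * d) ∧
      (univ.filter fun v => v ∉ A₀ ∪ vs (line l) ∧ y v ≠ z v).card ≤ q)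
    (by
      intro x z y₀ A₀ l hl hlr hlU hx hAt
      rcases hPDE n k m F j t d e s₀ hP hd hde S r line rule href U V an ls hT (k / K) ⌊ρ * n⌋₊
        h1 z y₀ A₀ l hl hlr hlU hAt with h | h
      · rw [← hq] at h
        refine Or.inl ⟨?_, h⟩
        obtain ⟨y, W, J, -, hy, hfal, -⟩ := hAt
        refine ⟨y, hfal, le_trans (card_le_card fun v hv => ?_) hx⟩
        rw [mem_filter] at hv ⊢
        refine ⟨mem_univ _, ?_⟩
        rw [← hy v hv.1]
        exact hv.2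
      · exact Or.inr h) x A (by
      have h2 : 16 * A.card ≤ 2 * n := (Nat.mul_le_mul_right _ hQ16).trans hAQ
      omega)
  have hwl : ((vs (line l)).card : ℝ) ≤ γ' * n := by
    rcases hlU with h | h
    · by_contra hcon
      push Not at hcon
      have h2 : w ≤ (vs (line l)).card := by
        rw [hw]
        have : ⌊γ' * n⌋₊ < (vs (line l)).card := by
          rw [Nat.floor_lt (by positivity)]
          exact hcon
        omega
      obtain ⟨⟨y, hy1, hy2⟩, -⟩ := hG x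
      have h3 := hxA l (by
        rw [hUw, mem_filter]
        exact ⟨h, hl, h2⟩) y hy1
      omega
    · rw [h, href.2.1]
      simp only [vs, image_empty, card_empty, Nat.cast_zero]
      positivity
  have hAr : (A.card : ℝ) ≤ ε₁ / 8 * n := by
    have h2 : (Q : ℝ) * A.card ≤ 2 * n := by exact_mod_cast hAQ
    have h3 : 16 ≤ Q * ε₁ := by
      rw [div_le_iff₀ hε₁] at hQ1
      exact hQ1
    have h4 : (0 : ℝ) ≤ A.card := Nat.cast_nonneg _
    nlinarith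
  obtain ⟨B, hB⟩ : ∃ B, B = A ∪ vs (line l) := ⟨_, rfl⟩
  have hBr : (B.card : ℝ) ≤ (γ + ε₁ / 4) * n := by
    have h2 : (B.card : ℝ) ≤ A.card + (vs (line l)).card := by
      rw [hB]
      exact_mod_cast card_union_le _ _
    have h3 : γ' * n ≤ (γ + ε₁ / 8) * n := mul_le_mul_of_nonneg_right hγ'u hn0.le
    linarith
  have h2 := hCN1 n S (B.card + (⌊ρ * n⌋₊ + 3 * d)) q
    (fun i => (exC (line (an i)) (ls i)).filter fun p => p.1 ∉ B) (by
      intro x'
      obtain ⟨-, i, hi, y, hy1, hy2, hy3⟩ := hG x'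
      refine ⟨i, hi, fun v => if v ∈ B then x' v else y v, ?_, ?_, ?_⟩
      · intro p hp
        rw [mem_filter] at hp
        simp only [if_neg hp.2]
        exact hy1 p hp.1
      · have h3 : (A ∪ vs (exC (line (an i)) (ls i))) \ B ⊆
            vs ((exC (line (an i)) (ls i)).filter fun p => p.1 ∉ B) := by
          intro v hv
          rw [mem_sdiff, mem_union] at hv
          obtain ⟨hv1, hv2⟩ := hv
          have hv3 : v ∉ A := fun h => hv2 (by rw [hB]; exact mem_union_left _ h)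
          have hv4 := hv1.resolve_left hv3
          unfold vs at hv4
          obtain ⟨p, hp, hpv⟩ := mem_image.1 hv4
          unfold vs
          refine mem_image.2 ⟨p, mem_filter.2 ⟨hp, ?_⟩, hpv⟩
          rw [hpv]
          exact hv2
        have h4 := card_le_card h3
        have h5 := le_card_sdiff B (A ∪ vs (exC (line (an i)) (ls i)))
        omega
      · refine le_trans (card_le_card fun v hv => ?_) hy3
        rw [mem_filter] at hv ⊢
        by_cases hv' : v ∈ B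
        · simp [hv'] at hv
        · simp only [if_neg hv'] at hv
          rw [hB] at hv'
          exact ⟨mem_univ _, hv', hv.2⟩)
  have h3 : (2 : ℝ) ^ n ≤ S * ((2 : ℝ) ^ (B.card + (⌊ρ * n⌋₊ + 3 * d)) * bl n q) := by
    exact_mod_cast h2
  have h4 : (2 : ℝ) ^ (⌊ρ * n⌋₊) ≤ (2 : ℝ) ^ (ρ * n) := by
    rw [← Real.rpow_natCast]
    exact Real.rpow_le_rpow_of_exponent_le (by norm_num) (Nat.floor_le hρ0)
  have h4' : (2 : ℝ) ^ B.card ≤ (2 : ℝ) ^ ((γ + ε₁ / 4) * n) := by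
    rw [← Real.rpow_natCast]
    exact Real.rpow_le_rpow_of_exponent_le (by norm_num) hBr
  have h5 : (2 : ℝ) ^ n ≤ S * ((2 : ℝ) ^ ((γ + ε₁ / 4) * n) *
      ((2 : ℝ) ^ (ρ * n) * (2 : ℝ) ^ (ε₁ / 10 * n))) := by
    refine h3.trans ?_
    rw [pow_add, pow_add, mul_assoc, mul_assoc]
    refine mul_le_mul_of_nonneg_left ?_ (Nat.cast_nonneg _)
    exact mul_le_mul h4' (mul_le_mul h4 hA (by positivity) (by positivity)) (by positivity)
      (by positivity)
  have h6 : (2 : ℝ) ^ ((1 - γ - ρ - ε) * n) * ((2 : ℝ) ^ ((γ + ε₁ / 4) * n) *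
      ((2 : ℝ) ^ (ρ * n) * (2 : ℝ) ^ (ε₁ / 10 * n))) ≤ (2 : ℝ) ^ n := by
    rw [← Real.rpow_add (by norm_num), ← Real.rpow_add (by norm_num),
      ← Real.rpow_add (by norm_num), ← Real.rpow_natCast]
    refine Real.rpow_le_rpow_of_exponent_le (by norm_num) ?_
    have h7 : 0 ≤ (ε - ε₁ / 4 - ε₁ / 10) * n := mul_nonneg (by linarith) hn0.le
    nlinarith
  have h7 := h6.trans h5
  exact le_of_mul_le_mul_right h7 (by positivity)

end Pool.Agent.H97.RL
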