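import Pool.Agent.H97.RL.Targets2
import Pool.Agent.H97.RK.FNB

/-!
Random formulas and resolution at the scale of SETH (MP_c62aed_lc): few lines used more than once:
from the targets to the inequalities.
-/

set_option autoImplicit false

namespace Pool.Agent.H97.RL

open Finset Pool.Agent.H97.RK

theorem real_of_num (n S M Ucard b p w : ℕ) (ε : ℝ) (hM : M ≤ Ucard)
    (h : 4 ^ n * 4 ^ w ≤ 1024 * (S ^ 2 * (M + 1) ^ p) * (b ^ 2) ^ 5 * 9 ^ w)
    (hb : 32 * (b : ℝ) ^ 5 ≤ (2 : ℝ) ^ (ε * n)) :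
    (2 : ℝ) ^ ((1 - ε) * n) ≤ S * (3 / 2 : ℝ) ^ w * ((Ucard : ℝ) + 1) ^ (p / 2 : ℝ) := by
  have h0 : (0 : ℝ) ≤ (M : ℝ) + 1 := by positivity
  have h1 : ((2 : ℝ) ^ n) ^ 2 ≤
      (S * (3 / 2 : ℝ) ^ w * ((M : ℝ) + 1) ^ (p / 2 : ℝ) * (32 * (b : ℝ) ^ 5)) ^ 2 := by
    have h2 : ((4 : ℝ)) ^ n * 4 ^ w ≤
        1024 * ((S : ℝ) ^ 2 * ((M : ℝ) + 1) ^ p) * ((b : ℝ) ^ 2) ^ 5 * 9 ^ w := by
      exact_mod_cast h
    have h3 : ((2 : ℝ) ^ n) ^ 2 = 4 ^ n := by
      rw [← pow_mul, mul_comm, pow_mul]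
      norm_num
    have h4 : (((M : ℝ) + 1) ^ (p / 2 : ℝ)) ^ 2 = ((M : ℝ) + 1) ^ p := by
      rw [← Real.rpow_natCast, ← Real.rpow_mul h0, ← Real.rpow_natCast]
      congr 1
      push_cast
      ring
    have h5 : ((3 / 2 : ℝ) ^ w) ^ 2 = 9 ^ w / 4 ^ w := by
      rw [← pow_mul, mul_comm, pow_mul, ← div_pow]
      norm_num
    rw [h3, mul_pow, mul_pow, mul_pow, h4, h5]
    have h6 : (0 : ℝ) < 4 ^ w := by positivity
    have h7 : (S : ℝ) ^ 2 * (9 ^ w / 4 ^ w) * ((M : ℝ) + 1) ^ p * (32 * (b : ℝ) ^ 5) ^ 2 =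
        (1024 * ((S : ℝ) ^ 2 * ((M : ℝ) + 1) ^ p) * ((b : ℝ) ^ 2) ^ 5 * 9 ^ w) / 4 ^ w := by
      ring
    rw [h7, le_div_iff₀ h6]
    exact h2
  have h2 : (2 : ℝ) ^ n ≤
      S * (3 / 2 : ℝ) ^ w * ((M : ℝ) + 1) ^ (p / 2 : ℝ) * (32 * (b : ℝ) ^ 5) :=
    (pow_le_pow_iff_left₀ (by positivity) (by positivity) two_ne_zero).1 h1
  have h3 : ((M : ℝ) + 1) ^ (p / 2 : ℝ) ≤ ((Ucard : ℝ) + 1) ^ (p / 2 : ℝ) := by
    refine Real.rpow_le_rpow h0 ?_ (by positivity)
    have : (M : ℝ) ≤ Ucard := by exact_mod_cast hM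
    linarith
  have h4 : (2 : ℝ) ^ n ≤
      S * (3 / 2 : ℝ) ^ w * ((Ucard : ℝ) + 1) ^ (p / 2 : ℝ) * (2 : ℝ) ^ (ε * n) := by
    refine h2.trans ?_
    refine mul_le_mul ?_ hb (by positivity) (by positivity)
    exact mul_le_mul_of_nonneg_left h3 (by positivity)
  have h5 : (2 : ℝ) ^ ((1 - ε) * n) * (2 : ℝ) ^ (ε * n) = (2 : ℝ) ^ n := by
    rw [← Real.rpow_add (by norm_num), ← Real.rpow_natCast]
    congr 1
    ring
  rw [← h5] at h4
  exact le_of_mul_le_mul_right h4 (by positivity)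

theorem vs_card_le {n : ℕ} (C : Clause n) : (vs C).card ≤ C.card := card_image_le

theorem lemmas_of (hTRE : T_TRE) (hPCA : T_PCA) (hALZ : T_ALZ) (hCN6 : T_CN6) (hNU2 : T_NU2)
    (hBLA : T_BLA) {n k m : ℕ} (F : Fml n k m) (ε : ℝ) (j t d e s₀ : ℕ)
    (hP : Par F j t d e s₀) (hX : 32 * (bl n (5 * d) : ℝ) ^ 5 ≤ (2 : ℝ) ^ (ε * n))
    (hC : 4 * (4 ^ n * bl n (e + d)) ≤ 8 ^ n)
    (S r : ℕ) (line : ℕ → Clause n) (rule : ℕ → Rule n) (href : IsRef F S r line rule)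
    (U : Finset ℕ) (hU : Once S rule U) (w : ℕ) :
    (2 : ℝ) ^ ((1 - ε) * n) ≤ S * (3 / 2 : ℝ) ^ w *
      (((U.filter fun l => w < (line l).card).card : ℝ) + 1) ^ (3 / 2 : ℝ) := by
  classical
  obtain ⟨an, ls, hT⟩ := hTRE n k m F S r line rule href U hU
  obtain ⟨w', hw'⟩ : ∃ w', w' = min w n := ⟨_, rfl⟩
  have hw'n : w' ≤ n := by omega
  have hw'w : w' ≤ w := by omega
  obtain ⟨V, hV⟩ : ∃ V, V = U.filter fun l => l < S ∧ w' < (vs (line l)).card := ⟨_, rfl⟩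
  have h1 : ∀ w₀, w' ≤ w₀ → ∀ (x : Fin n → Bool) (A : Finset (Fin n)), A.card + (e + d) ≤ n →
      ∃ l, (l ∈ V ∨ (vs (line l)).card ≤ w₀) ∧ ∀ z, ∃ i,
        (l, i) ∈ (range S).image (fun i => (an i, i)) ∧
        Ser (line l) ((fun _ i => pas (ls i)) l i) (5 * d) x z A := by
    intro w₀ hw₀ x A hA
    obtain ⟨l, hl, hlU, h⟩ := hALZ n k m F j t d e s₀ hP S r line href.1 href.2.1 U
      (fun x z A₀ l => ∃ i, i < S ∧ an i = l ∧ Ser (line l) (pas (ls i)) (5 * d) x z A₀)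
      (hPCA n k m F j t d e s₀ hP S r line rule href U an ls hT) x A hA
    refine ⟨l, ?_, fun z => ?_⟩
    · rcases hlU with h | h
      · by_cases hc : (vs (line l)).card ≤ w₀
        · exact Or.inr hc
        · refine Or.inl ?_
          rw [hV, mem_filter]
          exact ⟨h, hl, by omega⟩
      · refine Or.inr ?_
        rw [h, href.2.1]
        simp [vs]
    · obtain ⟨i, hi, hil, hs⟩ := h z
      exact ⟨i, mem_image.2 ⟨i, mem_range.2 hi, by rw [hil]⟩, hs⟩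
  have hM : V.card ≤ S := by
    refine (card_le_card (fun i hi => ?_ : _ ⊆ range S)).trans (le_of_eq (card_range S))
    rw [hV, mem_filter] at hi
    exact mem_range.2 hi.2.1
  have hMU : V.card ≤ (U.filter fun l => w < (line l).card).card := by
    refine card_le_card fun i hi => ?_
    rw [hV, mem_filter] at hi
    rw [mem_filter]
    refine ⟨hi.1, ?_⟩
    have h2 := vs_card_le (line i)
    have h3 : (vs (line i)).card ≤ n := by
      simpa using card_le_univ (vs (line i))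
    have h4 := hi.2.2
    omega
  have h2 := hNU2 n S V.card (bl n (5 * d) ^ 2) (bl n (e + d)) w'
    (Nat.one_le_pow _ _ (hBLA.2.2 _ _)) hM hC hw'n (by
      intro w₀ hw hwn
      refine (hCN6 n (5 * d) (e + d) w₀ line V _ _ hwn (h1 w₀ hw)).trans ?_
      refine Nat.add_le_add_right (Nat.add_le_add_right (Nat.mul_le_mul_right _ ?_) _) _
      exact card_image_le.trans (le_of_eq (card_range S)))
  have h3 := real_of_num n S V.card _ (bl n (5 * d)) 3 w' ε hMU (by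
      refine h2.trans (le_of_eq ?_)
      ring) hX
  refine h3.trans ?_
  refine mul_le_mul (mul_le_mul_of_nonneg_left
    (pow_le_pow_right₀ (by norm_num) hw'w) (Nat.cast_nonneg _)) (le_of_eq (by norm_num))
    (by positivity) (by positivity)

theorem Ser_mono {n : ℕ} (C : Clause n) (P : Fin n → Option Bool) (q q' : ℕ)
    (x z : Fin n → Bool) (A : Finset (Fin n)) (hq : q ≤ q') (h : Ser C P q x z A) :
    Ser C P q' x z A := by
  obtain ⟨y, hy, D, hD, h⟩ := h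
  exact ⟨y, hy, D, hD.trans hq, h⟩

theorem Ser_empty {n : ℕ} (C : Clause n) (P : Fin n → Option Bool) (q w : ℕ)
    (x z : Fin n → Bool) (A : Finset (Fin n)) (hw : (vs C).card ≤ w) (h : Ser C P q x z A) :
    Ser ∅ P (q + w) x z A := by
  obtain ⟨y, hy, D, hD, h⟩ := h
  refine ⟨y, fun l hl => absurd hl (by simp), D ∪ vs C, ?_, fun v hv => ?_⟩
  · exact (card_union_le _ _).trans (Nat.add_le_add hD hw)
  · rw [mem_union, not_or] at hv
    refine ⟨fun hv' => absurd hv' (by simp [vs]), fun _ => (h v hv.1).2 hv.2⟩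

theorem pieces_of (hPCB : T_PCB) (hALZ : T_ALZ) (hCN5 : T_CN5) (hNUM : T_NUM)
    (hBLA : T_BLA) {n k m : ℕ} (F : Fml n k m) (ε : ℝ) (K : ℕ) (hK : 1 ≤ K) (j t d e s₀ : ℕ)
    (hP : Par F j t d e s₀) (hd : 1 ≤ d) (hde : 2 * d + e ≤ n)
    (hX : 32 * (bl n (5 * d + 2 * t * (n * (k / K) / d + 1) + n / K) : ℝ) ^ 5 ≤
      (2 : ℝ) ^ (ε * n))
    (hC : 4 * (4 ^ n * bl n (e + d)) ≤ 8 ^ n)
    (S r : ℕ) (line : ℕ → Clause n) (rule : ℕ → Rule n) (href : IsRef F S r line rule)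
    (U : Finset ℕ) (hU : ∀ (a i : ℕ) (l : List (Fin n)), (a = r ∨ a ∈ U) → Seg rule U a i l →
      ∀ v, K * l.count v ≤ k) :
    (2 : ℝ) ^ ((1 - ε) * n) ≤ S *
      (((U.filter fun l => n < K * (line l).card).card : ℝ) + 1) ^ (5 / 2 : ℝ) := by
  classical
  obtain ⟨q, hq⟩ : ∃ q, q = 5 * d + 2 * t * (n * (k / K) / d + 1) := ⟨_, rfl⟩
  rw [← hq] at hX
  obtain ⟨V, hV⟩ : ∃ V, V = U.filter fun l => l < S ∧ n < K * (vs (line l)).card := ⟨_, rfl⟩
  have h1 : ∀ (x : Fin n → Bool) (A : Finset (Fin n)), A.card + (e + d) ≤ n →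
      ∃ l, (l ∈ V ∨ l = r) ∧ ∀ z, ∃ i,
        (l, i) ∈ (insert r V) ×ˢ (range S) ∧
        Ser (line l) ((fun _ i => fal (line i)) l i) (q + n / K) x z A := by
    intro x A hA
    obtain ⟨l, hl, hlU, h⟩ := hALZ n k m F j t d e s₀ hP S r line href.1 href.2.1 U
      (fun x z A₀ l => ∃ i, i < S ∧ Ser (line l) (fal (line i)) q x z A₀)
      (by
        rw [hq]
        refine hPCB n k m F j t d e s₀ hP hd hde S r line rule href U (k / K) ?_
        intro a i l ha hl v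
        rw [Nat.le_div_iff_mul_le (by omega), mul_comm]
        exact hU a i l ha hl v) x A hA
    by_cases hlr : l = r
    · refine ⟨l, Or.inr hlr, fun z => ?_⟩
      obtain ⟨i, hi, hs⟩ := h z
      exact ⟨i, mem_product.2 ⟨by rw [hlr]; exact mem_insert_self _ _, mem_range.2 hi⟩,
        Ser_mono _ _ _ _ _ _ _ (Nat.le_add_right _ _) hs⟩
    · have hlU' : l ∈ U := hlU.resolve_right hlr
      by_cases hc : n < K * (vs (line l)).card
      · have hlV : l ∈ V := by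
          rw [hV, mem_filter]
          exact ⟨hlU', hl, hc⟩
        refine ⟨l, Or.inl hlV, fun z => ?_⟩
        obtain ⟨i, hi, hs⟩ := h z
        exact ⟨i, mem_product.2 ⟨mem_insert_of_mem hlV, mem_range.2 hi⟩,
          Ser_mono _ _ _ _ _ _ _ (Nat.le_add_right _ _) hs⟩
      · have hc' : (vs (line l)).card ≤ n / K := by
          rw [Nat.le_div_iff_mul_le (by omega), mul_comm]
          omega
        refine ⟨r, Or.inr rfl, fun z => ?_⟩
        obtain ⟨i, hi, hs⟩ := h z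
        refine ⟨i, mem_product.2 ⟨mem_insert_self _ _, mem_range.2 hi⟩, ?_⟩
        rw [href.2.1]
        exact Ser_empty _ _ _ _ _ _ _ hc' hs
  have hS1 : 1 ≤ S := by
    have := href.1
    omega
  obtain ⟨M, hM⟩ : ∃ M, M = V.card := ⟨_, rfl⟩
  have hMU : M ≤ (U.filter fun l => n < K * (line l).card).card := by
    rw [hM]
    refine card_le_card fun i hi => ?_
    rw [hV, mem_filter] at hi
    rw [mem_filter]
    exact ⟨hi.1, hi.2.2.trans_le (Nat.mul_le_mul_left _ (vs_card_le _))⟩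
  have h2 := hNUM n ((M + 1) * S) M (bl n (q + n / K) ^ 2) (bl n (e + d))
    (Nat.one_le_pow _ _ (hBLA.2.2 _ _)) (by nlinarith) hC (by
      intro w₀ hw
      refine (hCN5 n S r (q + n / K) (e + d) w₀ line V _ _ href.2.1 hw h1).trans ?_
      rw [← hM]
      refine Nat.add_le_add_right (Nat.add_le_add_right (Nat.mul_le_mul_right _ ?_) _) _
      rw [card_product, card_range, hM]
      exact Nat.mul_le_mul_right _ (card_insert_le _ _))
  have h3 := real_of_num n S M _ (bl n (q + n / K)) 5 0 ε hMU (by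
      rw [pow_zero, pow_zero, mul_one, mul_one]
      refine h2.trans (le_of_eq ?_)
      ring) hX
  rw [pow_zero, mul_one] at h3
  exact_mod_cast h3

theorem tradeoffU_of (hPCC : T_PCC) (hALZ : T_ALZ) (hCN1 : T_CN1) {n k m : ℕ} (F : Fml n k m)
    (ε : ℝ) (K : ℕ) (hK : 1 ≤ K) (j t d e s₀ : ℕ) (hP : Par F j t d e s₀) (hd : 1 ≤ d)
    (hde : 2 * d + e ≤ n)
    (hA : (2 : ℝ) ^ (3 * d) * bl n (e + 2 * t * (n * (k / K) / d + 1)) ≤ (2 : ℝ) ^ (ε * n))
    (S r : ℕ) (line : ℕ → Clause n) (rule : ℕ → Rule n) (href : IsRef F S r line rule)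
    (U : Finset ℕ) (γ ρ : ℝ) (hγ : 0 ≤ γ) (hU : ∀ l ∈ U, ((line l).card : ℝ) ≤ γ * n)
    (hρ : ∀ (a i : ℕ) (l : List (Fin n)), (a = r ∨ a ∈ U) → Seg rule U a i l →
      ((univ.filter fun v => k < K * l.count v).card : ℝ) ≤ ρ * n) :
    (2 : ℝ) ^ ((1 - γ - ρ - ε) * n) ≤ S := by
  classical
  have hρ0 : 0 ≤ ρ * n := le_trans (Nat.cast_nonneg _) (hρ r r [] (Or.inl rfl) Seg.refl)
  have hγ0 : 0 ≤ γ * n := mul_nonneg hγ (Nat.cast_nonneg _)
  obtain ⟨q, hq⟩ : ∃ q, q = e + 2 * t * (n * (k / K) / d + 1) := ⟨_, rfl⟩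
  rw [← hq] at hA
  have h1 : ∀ (a i : ℕ) (l : List (Fin n)), (a = r ∨ a ∈ U) → Seg rule U a i l →
      (univ.filter fun v => k / K < l.count v).card ≤ ⌊ρ * n⌋₊ := by
    intro a i l ha hl
    refine Nat.le_floor ?_
    refine le_trans (le_of_eq ?_) (hρ a i l ha hl)
    congr 2
    ext v
    rw [mem_filter, mem_filter, Nat.div_lt_iff_lt_mul (by omega), mul_comm]
  obtain ⟨l, hl, hlU, hG⟩ := hALZ n k m F j t d e s₀ hP S r line href.1 href.2.1 U
    (fun _ z A₀ l => A₀ = ∅ → ∃ i, i < S ∧ ∃ y : Fin n → Bool, Falsified (line i) y ∧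
      n ≤ (vs (line i)).card + (⌊ρ * n⌋₊ + 3 * d) ∧
      (univ.filter fun v => v ∉ vs (line l) ∧ y v ≠ z v).card ≤ q)
    (by
      intro x z y₀ A₀ l hl _ hlU _ hAt
      by_cases hA₀ : A₀ = ∅
      · subst hA₀
        rcases hPCC n k m F j t d e s₀ hP hd hde S r line rule href U (k / K) ⌊ρ * n⌋₊ h1 z y₀ l
          hl hlU hAt with h | h
        · rw [← hq] at h
          exact Or.inl fun _ => h
        · exact Or.inr h
      · exact Or.inl fun h => absurd h hA₀) (fun _ => true) ∅ (by rw [card_empty]; omega)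
  have hw : ((vs (line l)).card : ℝ) ≤ γ * n := by
    rcases hlU with h | h
    · refine le_trans ?_ (hU l h)
      exact_mod_cast vs_card_le _
    · rw [h, href.2.1]
      simpa [vs] using hγ0
  obtain ⟨w, hwdef⟩ : ∃ w, w = (vs (line l)).card := ⟨_, rfl⟩
  rw [← hwdef] at hw
  have h2 := hCN1 n S (w + (⌊ρ * n⌋₊ + 3 * d)) q
    (fun i => (line i).filter fun p => p.1 ∉ vs (line l)) (by
      intro x
      obtain ⟨i, hi, y, hy1, hy2, hy3⟩ := hG x rfl
      refine ⟨i, hi, fun v => if v ∈ vs (line l) then x v else y v, ?_, ?_, ?_⟩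
      · intro p hp
        rw [mem_filter] at hp
        simp only [if_neg hp.2]
        exact hy1 p hp.1
      · have h3 : vs (line i) \ vs (line l) ⊆
            vs ((line i).filter fun p => p.1 ∉ vs (line l)) := by
          intro v hv
          rw [mem_sdiff] at hv
          obtain ⟨hv1, hv2⟩ := hv
          unfold vs at hv1
          obtain ⟨p, hp, hpv⟩ := mem_image.1 hv1
          unfold vs
          refine mem_image.2 ⟨p, mem_filter.2 ⟨hp, ?_⟩, hpv⟩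
          rw [hpv]
          exact hv2
        have h4 := card_le_card h3
        have h5 := le_card_sdiff (vs (line l)) (vs (line i))
        omega
      · refine le_trans (card_le_card fun v hv => ?_) hy3
        rw [mem_filter] at hv ⊢
        by_cases hv' : v ∈ vs (line l)
        · simp [hv'] at hv
        · simp only [if_neg hv'] at hv
          exact ⟨mem_univ _, hv', hv.2⟩)
  have h3 : (2 : ℝ) ^ n ≤ S * ((2 : ℝ) ^ (w + (⌊ρ * n⌋₊ + 3 * d)) * bl n q) := by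
    exact_mod_cast h2
  have h4 : (2 : ℝ) ^ (⌊ρ * n⌋₊) ≤ (2 : ℝ) ^ (ρ * n) := by
    rw [← Real.rpow_natCast]
    exact Real.rpow_le_rpow_of_exponent_le (by norm_num) (Nat.floor_le hρ0)
  have h4' : (2 : ℝ) ^ w ≤ (2 : ℝ) ^ (γ * n) := by
    rw [← Real.rpow_natCast]
    exact Real.rpow_le_rpow_of_exponent_le (by norm_num) hw
  have h5 : (2 : ℝ) ^ n ≤ S * ((2 : ℝ) ^ (γ * n) * ((2 : ℝ) ^ (ρ * n) * (2 : ℝ) ^ (ε * n))) := by
    refine h3.trans ?_
    rw [pow_add, pow_add, mul_assoc, mul_assoc]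
    refine mul_le_mul_of_nonneg_left ?_ (Nat.cast_nonneg _)
    exact mul_le_mul h4' (mul_le_mul h4 hA (by positivity) (by positivity)) (by positivity)
      (by positivity)
  have h6 : (2 : ℝ) ^ ((1 - γ - ρ - ε) * n) * ((2 : ℝ) ^ (γ * n) * ((2 : ℝ) ^ (ρ * n) *
      (2 : ℝ) ^ (ε * n))) = (2 : ℝ) ^ n := by
    rw [← Real.rpow_add (by norm_num), ← Real.rpow_add (by norm_num),
      ← Real.rpow_add (by norm_num), ← Real.rpow_natCast]
    congr 1
    ring
  rw [← h6] at h5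
  exact le_of_mul_le_mul_right h5 (by positivity)

end Pool.Agent.H97.RL
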