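import Pool.Agent.H97.RL.FNL

/-!
Random formulas and resolution at the scale of SETH (MP_c62aed_lc): few lines used more than once:
the theorem.
-/

set_option autoImplicit false

namespace Pool.Agent.H97.RL

open Finset Pool.Agent.H97.RK

theorem num_four (n b : ℕ) (hn : 3 ≤ n) (h : 2 * (2 ^ n * b) ≤ 3 ^ n) :
    4 * (4 ^ n * b) ≤ 8 ^ n := by
  have h1 : 4 * (4 ^ n * b) = 2 * 2 ^ n * (2 * (2 ^ n * b)) := by
    have : (4 : ℕ) ^ n = 2 ^ n * 2 ^ n := by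
      rw [← mul_pow]
      norm_num
    rw [this]
    ring
  have h2 : 2 * 3 ^ n ≤ 4 ^ n := by
    obtain ⟨a, rfl⟩ := Nat.exists_eq_add_of_le hn
    rw [pow_add, pow_add]
    have : 3 ^ a ≤ 4 ^ a := Nat.pow_le_pow_left (by norm_num) _
    omega
  calc 4 * (4 ^ n * b) ≤ 2 * 2 ^ n * 3 ^ n := h1 ▸ Nat.mul_le_mul_left _ h
    _ = 2 ^ n * (2 * 3 ^ n) := by ring
    _ ≤ 2 ^ n * 4 ^ n := Nat.mul_le_mul_left _ h2
    _ = 8 ^ n := by
      rw [← mul_pow]
      norm_num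

theorem num_five (hBLA : T_BLA) (n d : ℕ) : bl n (5 * d) ≤ bl n d ^ 5 := by
  have h := hBLA.1
  calc bl n (5 * d) = bl n (d + (d + (d + (d + d)))) := by congr 1; ring
    _ ≤ bl n d * bl n (d + (d + (d + d))) := h _ _ _
    _ ≤ bl n d * (bl n d * bl n (d + (d + d))) := Nat.mul_le_mul_left _ (h _ _ _)
    _ ≤ bl n d * (bl n d * (bl n d * bl n (d + d))) :=
        Nat.mul_le_mul_left _ (Nat.mul_le_mul_left _ (h _ _ _))
    _ ≤ bl n d * (bl n d * (bl n d * (bl n d * bl n d))) :=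
        Nat.mul_le_mul_left _ (Nat.mul_le_mul_left _ (Nat.mul_le_mul_left _ (h _ _ _)))
    _ = bl n d ^ 5 := by ring

theorem num_X (hBLA : T_BLA) (n d e t u v : ℕ) (ε : ℝ) (hed : e ≤ d)
    (hA : (2 : ℝ) ^ (3 * d) * bl n u ≤ (2 : ℝ) ^ (ε / 100 * n))
    (hB : 2 * (bl n (d + 2 * t) : ℝ) * bl n t ≤ (2 : ℝ) ^ (ε / 100 * n))
    (hv : (bl n v : ℝ) ≤ (2 : ℝ) ^ (ε / 100 * n)) :
    32 * (bl n (5 * d) : ℝ) ^ 5 ≤ (2 : ℝ) ^ (ε * n) ∧
      32 * (bl n (5 * d + u + v) : ℝ) ^ 5 ≤ (2 : ℝ) ^ (ε * n) ∧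
      (2 : ℝ) ^ (3 * d) * bl n (e + u) ≤ (2 : ℝ) ^ (ε * n) := by
  obtain ⟨c, hc⟩ : ∃ c : ℝ, c = (2 : ℝ) ^ (ε / 100 * n) := ⟨_, rfl⟩
  rw [← hc] at hA hB hv
  have h1 : ∀ a, (1 : ℝ) ≤ bl n a := fun a => by exact_mod_cast hBLA.2.2 n a
  have h2 : (2 : ℝ) ≤ c := by
    have h3 := h1 (d + 2 * t)
    have h4 := h1 t
    nlinarith
  have h3 : (bl n d : ℝ) ≤ c := by
    have h3 : (bl n d : ℝ) ≤ bl n (d + 2 * t) := by exact_mod_cast hBLA.2.1 n _ _ (by omega)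
    have h4 := h1 t
    have h5 := h1 d
    nlinarith
  have h3e : (bl n e : ℝ) ≤ c :=
    le_trans (by exact_mod_cast hBLA.2.1 n _ _ hed) h3
  have h4 : (bl n u : ℝ) ≤ c := by
    refine le_trans ?_ hA
    have h5 : (1 : ℝ) ≤ (2 : ℝ) ^ (3 * d) := one_le_pow₀ (by norm_num)
    have h6 := h1 u
    nlinarith
  have h5 : (bl n (5 * d) : ℝ) ≤ c ^ 5 := by
    refine le_trans (b := (bl n d : ℝ) ^ 5) (by exact_mod_cast num_five hBLA n d) ?_
    exact pow_le_pow_left₀ (by linarith [h1 d]) h3 5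
  have h6 : (bl n (5 * d + u + v) : ℝ) ≤ c ^ 7 := by
    refine le_trans (b := (bl n (5 * d + u) : ℝ) * bl n v) (by exact_mod_cast hBLA.1 n _ _) ?_
    have h6 : (bl n (5 * d + u) : ℝ) ≤ c ^ 6 := by
      refine le_trans (b := (bl n (5 * d) : ℝ) * bl n u) (by exact_mod_cast hBLA.1 n _ _) ?_
      calc (bl n (5 * d) : ℝ) * bl n u ≤ c ^ 5 * c :=
            mul_le_mul h5 h4 (by linarith [h1 u]) (by positivity)
        _ = c ^ 6 := by ring
    calc (bl n (5 * d + u) : ℝ) * bl n v ≤ c ^ 6 * c :=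
          mul_le_mul h6 hv (by linarith [h1 v]) (by positivity)
      _ = c ^ 7 := by ring
  have h7 : c ^ 100 = (2 : ℝ) ^ (ε * n) := by
    rw [hc, ← Real.rpow_natCast, ← Real.rpow_mul (by norm_num)]
    congr 1
    push_cast
    ring
  have h8 : (32 : ℝ) ≤ c ^ 5 := by
    have := pow_le_pow_left₀ (by norm_num) h2 5
    linarith
  have hc1 : (1 : ℝ) ≤ c := by linarith
  rw [← h7]
  refine ⟨?_, ?_, ?_⟩
  · calc 32 * (bl n (5 * d) : ℝ) ^ 5 ≤ c ^ 5 * (c ^ 5) ^ 5 :=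
          mul_le_mul h8 (pow_le_pow_left₀ (by linarith [h1 (5 * d)]) h5 5) (by positivity)
            (by positivity)
      _ = c ^ 30 := by ring
      _ ≤ c ^ 100 := pow_le_pow_right₀ hc1 (by norm_num)
  · calc 32 * (bl n (5 * d + u + v) : ℝ) ^ 5 ≤ c ^ 5 * (c ^ 7) ^ 5 :=
          mul_le_mul h8 (pow_le_pow_left₀ (by linarith [h1 (5 * d + u + v)]) h6 5)
            (by positivity) (by positivity)
      _ = c ^ 40 := by ring
      _ ≤ c ^ 100 := pow_le_pow_right₀ hc1 (by norm_num)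
  · calc (2 : ℝ) ^ (3 * d) * bl n (e + u) ≤ (2 : ℝ) ^ (3 * d) * (bl n e * bl n u) :=
          mul_le_mul_of_nonneg_left (by exact_mod_cast hBLA.1 n _ _) (by positivity)
      _ = (2 : ℝ) ^ (3 * d) * bl n u * bl n e := by ring
      _ ≤ c * c := mul_le_mul hA h3e (by linarith [h1 e]) (by positivity)
      _ = c ^ 2 := by ring
      _ ≤ c ^ 100 := pow_le_pow_right₀ hc1 (by norm_num)

theorem pf_FNM (hCN1 : T_CN1) (hTAU : T_TAU) (hMED : T_MED) (hCN2 : T_CN2)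
    (hPX1 : T_PX1) (hPX2 : T_PX2) (hPSA : T_PSA) (hNX1 : T_NX1) (hNX2 : T_NX2) (hPRM : T_PRM)
    (hTRE : T_TRE) (hPCA : T_PCA) (hPCB : T_PCB) (hPCC : T_PCC) (hALZ : T_ALZ) (hCN5 : T_CN5)
    (hCN6 : T_CN6) (hNUM : T_NUM) (hNU2 : T_NU2) (hBLA : T_BLA) (hBLB : T_BLB) : MainL := by
  classical
  intro ε hε
  have hε1 : 0 < min ε 1 / 100 := div_pos (lt_min hε one_pos) (by norm_num)
  have hε2 : min ε 1 / 100 ≤ 1 := by
    have := min_le_right ε 1
    linarith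
  have hε3 : min ε 1 / 100 ≤ ε := by
    have := min_le_left ε 1
    linarith
  obtain ⟨δ, κ, hδ, hδ1, hκ, hκ1, hprm⟩ := hPRM (min ε 1 / 100) hε1 hε2
  obtain ⟨σ, hσ, hσ1, K₁, hnx1⟩ := hNX1 κ hκ hκ1
  obtain ⟨K₂, hK₂, hprm⟩ := hprm σ hσ
  obtain ⟨K₃, hK₃, hnx2⟩ := hNX2 δ hδ hδ1
  obtain ⟨K₄, hK₄, hnsb⟩ := pf_NSB ε hε
  obtain ⟨ξ, hξ, hblb⟩ := hBLB (min ε 1 / 100) hε1
  obtain ⟨K, hKdef⟩ : ∃ K : ℕ, K = K₁ + K₂ + K₃ + K₄ + ⌈1 / ξ⌉₊ + 3 := ⟨_, rfl⟩
  have hK1 : 1 ≤ K := by omega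
  have hKξ : 1 / ξ ≤ K := by
    refine (Nat.le_ceil _).trans ?_
    have : ⌈1 / ξ⌉₊ ≤ K := by omega
    exact_mod_cast this
  refine ⟨K, hK1, fun k n m hKk hKn hm => ?_⟩
  have hkn : k ≤ n := (Nat.le_mul_of_pos_left k hK1).trans hKn
  have hKn' : K ≤ n := (Nat.le_mul_of_pos_right K (by omega)).trans hKn
  have hn1 : 1 ≤ n := by omega
  have hn0 : (0 : ℝ) < n := by exact_mod_cast hn1
  obtain ⟨j, t, d, e, hj1, hj2, ht1, hts, hte, hje, hed, hd1, hde, hdn, hkt, hA, hB, hC⟩ :=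
    hprm K k n (by omega) hKk hKn
  have hs₀ : ⌊σ * n⌋₊ ≤ n := by
    refine Nat.floor_le_of_le ?_
    nlinarith
  have hmon : (2 : ℝ) ^ (min ε 1 / 100 * n) ≤ (2 : ℝ) ^ (ε * n) :=
    Real.rpow_le_rpow_of_exponent_le (by norm_num) (mul_le_mul_of_nonneg_right hε3 hn0.le)
  have hmon1 : (2 : ℝ) ^ (min ε 1 * n) ≤ (2 : ℝ) ^ (ε * n) :=
    Real.rpow_le_rpow_of_exponent_le (by norm_num)
      (mul_le_mul_of_nonneg_right (min_le_left _ _) hn0.le)
  have hB' : 2 * (bl n (d + 2 * t) : ℝ) * bl n t ≤ (2 : ℝ) ^ (ε * n) := hB.trans hmon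
  have hK0 : (0 : ℝ) < K := by exact_mod_cast hK1
  have hv : (bl n (n / K) : ℝ) ≤ (2 : ℝ) ^ (min ε 1 / 100 * n) := by
    refine hblb n (n / K) ?_
    have h1 : ((n / K : ℕ) : ℝ) ≤ n / K := Nat.cast_div_le
    refine h1.trans ?_
    rw [div_le_iff₀ hK0]
    have h2 : 1 ≤ ξ * K := by
      rw [div_le_iff₀ hξ] at hKξ
      linarith
    nlinarith
  have hX := num_X hBLA n d e t _ (n / K) (min ε 1) (by omega) hA hB hv
  have hC4 := num_four n _ (by omega) hC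
  have hm4 : m ≤ 4 ^ k * n := by
    have h1 : (2 : ℝ) ^ ((1 + 1 / (K : ℝ)) * k) ≤ 4 ^ k := by
      have h2 : (4 : ℝ) ^ k = (2 : ℝ) ^ ((2 : ℝ) * k) := by
        rw [Real.rpow_mul (by norm_num), Real.rpow_natCast]
        norm_num
      rw [h2]
      refine Real.rpow_le_rpow_of_exponent_le (by norm_num) ?_
      have h3 : 1 / (K : ℝ) ≤ 1 := by
        rw [div_le_one (by exact_mod_cast hK1)]
        exact_mod_cast hK1
      have h4 : (0 : ℝ) ≤ k := Nat.cast_nonneg _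
      nlinarith
    have h2 : (m : ℝ) ≤ 4 ^ k * n := hm.trans (mul_le_mul_of_nonneg_right h1 hn0.le)
    exact_mod_cast h2
  have hx1 := hnx1 k n m j (by omega) (by omega) hm4 hj1 hj2.le
  have hx2 := hnx2 K k n m t d e (by omega) (by omega) (by omega) hm hdn (by omega) hed hkt
  have hx3 := hnsb k n m (by omega)
  have hhard : ∀ F : Fml n k m, X1 F j ⌊σ * n⌋₊ → X2 F t d e →
      ((Real.log 2 + ε) * 2 ^ k * n ≤ m → ∀ z, ∃ c, Falsified (cls F c) z) → HdL ε K F := by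
    intro F h1 h2 h3
    have hP : Par F j t d e ⌊σ * n⌋₊ := ⟨h1, h2, hj2, ht1, hts, hte, hje, by omega⟩
    exact ⟨h3, tradeoffU_of hPCC hALZ hCN1 F ε K hK1 j t d e _ hP hd1 hde
        (hX.2.2.trans hmon1),
      lemmas_of hTRE hPCA hALZ hCN6 hNU2 hBLA F ε j t d e _ hP (hX.1.trans hmon1) hC4,
      pieces_of hPCB hALZ hCN5 hNUM hBLA F ε K hK1 j t d e _ hP hd1 hde
        (hX.2.1.trans hmon1) hC4,
      general_of hTAU hMED hCN2 F ε j t d e _ hP hB' hC⟩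
  constructor
  · have hN : ((Nat.card (Fml n k m) : ℕ) : ℝ) = ((2 * n) ^ k : ℝ) ^ m := by
      rw [Nat.card_eq_fintype_card, Fintype.card_fun, Fintype.card_fun, Fintype.card_prod,
        Fintype.card_fin, Fintype.card_fin, Fintype.card_fin, Fintype.card_bool]
      push_cast
      ring
    rw [hN]
    have hb : ∀ a : ℝ, ∀ b : ℝ, a ≤ b * ((2 * n) ^ k : ℝ) ^ m → b ≤ 1 / (4 * n) →
        a ≤ 1 / (4 * n) * ((2 * n) ^ k : ℝ) ^ m := fun a b h1 h2 =>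
      h1.trans (mul_le_mul_of_nonneg_right h2 (by positivity))
    have h1 := count_fin (α := Fml n k m) (fun _ => True) (fun F => HdL ε K F)
      (fun F => X1 F j ⌊σ * n⌋₊) (fun F => X2 F t d e)
      (fun F => (Real.log 2 + ε) * 2 ^ k * n ≤ m → ∀ z, ∃ c, Falsified (cls F c) z) n hn1
      (((2 * n) ^ k : ℝ) ^ m) (by positivity) (fun F _ => hhard F)
      (hb _ _ ((natcard_le _ _ fun _ h => h.2).trans (hPX1 n k m j _ hn1 hs₀)) hx1)
      (hb _ _ ((natcard_le _ _ fun _ h => h.2).trans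
        (hPX2 n k m t d e hn1 (by omega) (by omega))) hx2) (by
        by_cases hmm : (Real.log 2 + ε) * 2 ^ k * n ≤ m
        · exact hb _ _ ((natcard_le _ _ fun _ h h' => h.2 fun _ => h').trans
            (hPSA n k m hn1)) (hx3 hmm)
        · refine le_trans (le_of_eq (natcard_zero _ fun F h => h.2 fun h' => absurd h' hmm)) ?_
          positivity)
    refine le_trans (le_of_eq ?_) h1
    congr 2
    exact Nat.card_congr (Equiv.subtypeEquivRight fun F => by simp)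
  · have hN : ((Nat.card {F : Fml n k m // Dist F} : ℕ) : ℝ) = ((Om n k).card : ℝ) ^ m := by
      rw [Nat.card_eq_fintype_card, Fintype.card_subtype]
      have : (univ.filter fun F : Fml n k m => Dist F) =
          Fintype.piFinset fun _ : Fin m => Om n k := by
        ext F
        rw [mem_filter, Fintype.mem_piFinset, Dist_iff]
        simp
      rw [this, Fintype.card_piFinset_const, Nat.cast_pow]
    rw [hN]
    have hb : ∀ a : ℝ, ∀ b : ℝ, a ≤ b * ((Om n k).card : ℝ) ^ m → b ≤ 1 / (4 * n) →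
        a ≤ 1 / (4 * n) * ((Om n k).card : ℝ) ^ m := fun a b h1 h2 =>
      h1.trans (mul_le_mul_of_nonneg_right h2 (by positivity))
    exact count_fin (α := Fml n k m) (fun F => Dist F) (fun F => HdL ε K F)
      (fun F => X1 F j ⌊σ * n⌋₊) (fun F => X2 F t d e)
      (fun F => (Real.log 2 + ε) * 2 ^ k * n ≤ m → ∀ z, ∃ c, Falsified (cls F c) z) n hn1
      (((Om n k).card : ℝ) ^ m) (by positivity) (fun F _ => hhard F)
      (hb _ _ ((natcard_le _ _ fun _ h => h).trans (pf_DX1 n k m j _ hn1 hkn hs₀)) hx1)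
      (hb _ _ ((natcard_le _ _ fun _ h => h).trans
        (pf_DX2 n k m t d e hn1 hkn (by omega) (by omega))) hx2) (by
        by_cases hmm : (Real.log 2 + ε) * 2 ^ k * n ≤ m
        · exact hb _ _ ((natcard_le _ _ fun _ h => ⟨h.1, fun h' => h.2 fun _ => h'⟩).trans
            (pf_DSA n k m)) (hx3 hmm)
        · refine le_trans (le_of_eq (natcard_zero _ fun F h => h.2 fun h' => absurd h' hmm)) ?_
          positivity)

end Pool.Agent.H97.RL
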