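import Pool.Agent.H97.RK.Final

/-!
Random formulas and resolution at the scale of SETH (MP_c62aed_lc): lines which are used at most
once.
-/

set_option autoImplicit false

namespace Pool.Agent.H97.RL

open Finset Pool.Agent.H97.RK

/-- The line `i` is obtained from the line `j` (and perhaps another line); `b` tells whether `j` is
the second of the two lines. -/
def Use {n : ℕ} (rule : ℕ → Rule n) (j i : ℕ) (b : Bool) : Prop :=
  (rule i = Rule.weak j ∧ b = false) ∨ (∃ x a, rule i = Rule.res x j a ∧ b = false) ∨
    ∃ x a, rule i = Rule.res x a j ∧ b = true

/-- Every line `j` outside `U` which is not obtained from a clause of the formula is used at most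
once: there is at most one line `i` which is obtained from `j`, and if `i` is obtained from two
lines, only one of them is `j`. -/
def Once {n : ℕ} (S : ℕ) (rule : ℕ → Rule n) (U : Finset ℕ) : Prop :=
  ∀ j, j < S → j ∉ U → rule j ≠ Rule.ax → ∀ i b i' b', i < S → i' < S →
    Use rule j i b → Use rule j i' b' → i = i' ∧ b = b'

end Pool.Agent.H97.RL
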