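import Pool.Agent.H97.RL.Stmt

/-!
Random formulas and resolution at the scale of SETH (MP_c62aed_lc): paths which are cut into parts.
-/

set_option autoImplicit false

namespace Pool.Agent.H97.RL

open Finset Pool.Agent.H97.RK

/-- `Seg3 rule U V a i q l`: there is a path from the line `a` to the line `i` (from lines to the
lines from which they are obtained) on which, after its beginning, no line of `U` occurs; the lines
of `V` cut it into parts; `l` lists the resolved variables, each once for every part in which it is
resolved; `q` is the set of the variables resolved in the last part. -/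
inductive Seg3 {n : ℕ} (rule : ℕ → Rule n) (U V : Finset ℕ) (a : ℕ) :
    ℕ → Finset (Fin n) → List (Fin n) → Prop
  | refl : Seg3 rule U V a a ∅ []
  | weak {i j : ℕ} {q : Finset (Fin n)} {l : List (Fin n)} : Seg3 rule U V a i q l →
      rule i = Rule.weak j → j ∉ U → Seg3 rule U V a j (if j ∈ V then ∅ else q) l
  | left {i j b : ℕ} {x : Fin n} {q : Finset (Fin n)} {l : List (Fin n)} :
      Seg3 rule U V a i q l → rule i = Rule.res x j b → j ∉ U →
      Seg3 rule U V a j (if j ∈ V then ∅ else insert x q) (if x ∈ q then l else x :: l)
  | right {i j b : ℕ} {x : Fin n} {q : Finset (Fin n)} {l : List (Fin n)} :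
      Seg3 rule U V a i q l → rule i = Rule.res x b j → j ∉ U →
      Seg3 rule U V a j (if j ∈ V then ∅ else insert x q) (if x ∈ q then l else x :: l)

end Pool.Agent.H97.RL
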