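import Pool.Agent.H97.RL.Stmt

/-!
Random formulas and resolution at the scale of SETH (MP_c62aed_lc): earlier form of the statement
(not handed in).
-/

set_option autoImplicit false

namespace Pool.Agent.H97.RL

open Finset Pool.Agent.H97.RK

/-- `Seg rule U a i l`: there is a path from the line `a` to the line `i` along which the variables
of the list `l` are resolved and on which, after its beginning, no line of `U` occurs. -/
inductive Seg {n : ℕ} (rule : ℕ → Rule n) (U : Finset ℕ) (a : ℕ) : ℕ → List (Fin n) → Prop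
  | refl : Seg rule U a a []
  | weak {i j : ℕ} {l : List (Fin n)} : Seg rule U a i l → rule i = Rule.weak j → j ∉ U →
      Seg rule U a j l
  | left {i j b : ℕ} {x : Fin n} {l : List (Fin n)} :
      Seg rule U a i l → rule i = Rule.res x j b → j ∉ U → Seg rule U a j (x :: l)
  | right {i j b : ℕ} {x : Fin n} {l : List (Fin n)} :
      Seg rule U a i l → rule i = Rule.res x b j → j ∉ U → Seg rule U a j (x :: l)

/-- `F` is unsatisfiable if it has at least `(log 2 + ε) 2 ^ k n` clauses. Let a resolution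
refutation of `F` with `S` lines and a set `U` of lines be given. If the lines in `U` have at most
`γ n` literals and on each path which contains no line of `U` after its beginning (a line of `U` or
the empty line) at most `ρ n` variables are resolved more than `k / K` times, then
`2 ^ ((1 - γ - ρ - ε) n) ≤ S`. If every line outside `U` which is not obtained from a clause of `F`
is used at most once and at most `M` lines in `U` have more than `w` literals, then
`2 ^ ((1 - ε) n) ≤ S (3 / 2) ^ w (M + 1) ^ (3 / 2)`. If on each path which contains no line of `U`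
after its beginning every variable is resolved at most `k / K` times and at most `M` lines in `U`
have more than `n / K` literals, then `2 ^ ((1 - ε) n) ≤ S (M + 1) ^ (5 / 2)`. In general
`(3 / 2) ^ n 2 ^ (- ε n) ≤ S`. -/
structure HdL {n k m : ℕ} (ε : ℝ) (K : ℕ) (F : Fml n k m) : Prop where
  unsat : (Real.log 2 + ε) * 2 ^ k * n ≤ m → ∀ z, ∃ c, Falsified (cls F c) z
  tradeoff : ∀ (S r : ℕ) (line : ℕ → Clause n) (rule : ℕ → Rule n), IsRef F S r line rule →
    ∀ (U : Finset ℕ) (γ ρ : ℝ), 0 ≤ γ → (∀ l ∈ U, ((line l).card : ℝ) ≤ γ * n) →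
    (∀ (a i : ℕ) (l : List (Fin n)), (a = r ∨ a ∈ U) → Seg rule U a i l →
      ((univ.filter fun v => k < K * l.count v).card : ℝ) ≤ ρ * n) →
    (2 : ℝ) ^ ((1 - γ - ρ - ε) * n) ≤ S
  lemmas : ∀ (S r : ℕ) (line : ℕ → Clause n) (rule : ℕ → Rule n), IsRef F S r line rule →
    ∀ U : Finset ℕ, Once S rule U → ∀ w : ℕ,
    (2 : ℝ) ^ ((1 - ε) * n) ≤ S * (3 / 2 : ℝ) ^ w *
      (((U.filter fun l => w < (line l).card).card : ℝ) + 1) ^ (3 / 2 : ℝ)
  pieces : ∀ (S r : ℕ) (line : ℕ → Clause n) (rule : ℕ → Rule n), IsRef F S r line rule →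
    ∀ U : Finset ℕ, (∀ (a i : ℕ) (l : List (Fin n)), (a = r ∨ a ∈ U) → Seg rule U a i l →
      ∀ v, K * l.count v ≤ k) →
    (2 : ℝ) ^ ((1 - ε) * n) ≤ S *
      (((U.filter fun l => n < K * (line l).card).card : ℝ) + 1) ^ (5 / 2 : ℝ)
  general : ∀ (S r : ℕ) (line : ℕ → Clause n) (rule : ℕ → Rule n), IsRef F S r line rule →
    (3 / 2 : ℝ) ^ n * (2 : ℝ) ^ (-(ε * n)) ≤ S

/-- Among the formulas with `m` clauses of `k` literals, at most the fraction `1 / n` is not hard,
and the same among the formulas with `m` clauses of `k` literals with distinct variables. -/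
def MainL : Prop :=
  ∀ ε : ℝ, 0 < ε → ∃ K : ℕ, 1 ≤ K ∧ ∀ k n m : ℕ, K ≤ k → K * k ≤ n →
    (m : ℝ) ≤ (2 : ℝ) ^ ((1 + 1 / (K : ℝ)) * k) * n →
    (n : ℝ) * Nat.card {F : Fml n k m // ¬ HdL ε K F} ≤ Nat.card (Fml n k m) ∧
    (n : ℝ) * Nat.card {F : Fml n k m // Dist F ∧ ¬ HdL ε K F} ≤
      Nat.card {F : Fml n k m // Dist F}

end Pool.Agent.H97.RL
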