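import Pool.Agent.H97.RL.StmtOld
import Pool.Agent.H97.RK.Targets

/-!
Random formulas and resolution at the scale of SETH (MP_c62aed_lc): few lines used more than once:
auxiliary definitions and targets.
-/

set_option autoImplicit false

namespace Pool.Agent.H97.RL

open Finset Pool.Agent.H97.RK

/-- For a refutation in which every line outside `U` is used at most once: `an j` is the first line
of `U` or the line `r` above `j`, and `ls j` is the list of the answers on the way from `an j` to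
`j`. -/
structure Tree {n : ℕ} (S r : ℕ) (rule : ℕ → Rule n) (U : Finset ℕ) (an : ℕ → ℕ)
    (ls : ℕ → List (Fin n × Bool)) : Prop where
  base : ∀ j, (j ∈ U ∨ j = r) → an j = j ∧ ls j = []
  weak : ∀ i j, i < S → j ∉ U → j ≠ r → rule j ≠ Rule.ax → rule i = Rule.weak j →
    an j = an i ∧ ls j = ls i
  left : ∀ i j a x, i < S → j ∉ U → j ≠ r → rule j ≠ Rule.ax → rule i = Rule.res x j a →
    an j = an i ∧ ls j = (x, false) :: ls i
  right : ∀ i j a x, i < S → j ∉ U → j ≠ r → rule j ≠ Rule.ax → rule i = Rule.res x a j →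
    an j = an i ∧ ls j = (x, true) :: ls i

/-- the restriction given by a list of answers (the first entry counts) -/
def pas {n : ℕ} (l : List (Fin n × Bool)) (v : Fin n) : Option Bool :=
  (l.find? fun p => p.1 = v).map Prod.snd

/-- the restriction which falsifies a clause -/
def fal {n : ℕ} (C : Clause n) (v : Fin n) : Option Bool :=
  if (v, true) ∈ C then some false else if (v, false) ∈ C then some true else none

/-- `(C, P)` serves `(x, z, A)`: up to `q` exceptional variables, `x` falsifies `C` on `A`; and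
outside the variables of `C`, `P` agrees with `x` on `A` and with `z` outside `A`, and `P` is
defined outside `A`. -/
def Ser {n : ℕ} (C : Clause n) (P : Fin n → Option Bool) (q : ℕ) (x z : Fin n → Bool)
    (A : Finset (Fin n)) : Prop :=
  ∃ y : Fin n → Bool, Falsified C y ∧ ∃ D : Finset (Fin n), D.card ≤ q ∧ ∀ v, v ∉ D →
    (v ∈ vs C → v ∈ A → x v = y v) ∧
    (v ∉ vs C → (∀ b, P v = some b → (v ∈ A → x v = b) ∧ (v ∉ A → z v = b)) ∧
      (P v = none → v ∈ A))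

/-! ### The path -/

/-- (TRE) the tree structure. -/
def T_TRE : Prop :=
  ∀ (n k m : ℕ) (F : Fml n k m) (S r : ℕ) (line : ℕ → Clause n) (rule : ℕ → Rule n),
    IsRef F S r line rule → ∀ U : Finset ℕ, Once S rule U →
    ∃ (an : ℕ → ℕ) (ls : ℕ → List (Fin n × Bool)), Tree S r rule U an ls

/-- (STQ) one step of the path. -/
def T_STQ : Prop :=
  ∀ (n k m : ℕ) (F : Fml n k m) (j t d e s₀ : ℕ), Par F j t d e s₀ →
    ∀ (S r : ℕ) (line : ℕ → Clause n) (rule : ℕ → Rule n), IsRef F S r line rule →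
    ∀ (i : ℕ) (y : Fin n → Bool) (A W : Finset (Fin n)) (J : Finset (Fin m)), i < S →
    St F j t y A W J → Falsified (line i) y → vs (line i) ⊆ A → A.card + 1 + e + d ≤ n →
    rule i ≠ Rule.ax ∧
    ∃ (i' : ℕ) (y' : Fin n → Bool) (A' W' : Finset (Fin n)) (J' : Finset (Fin m)),
      i' < i ∧ St F j t y' A' W' J' ∧ Falsified (line i') y' ∧ vs (line i') ⊆ A' ∧
      A'.card ≤ A.card + 1 ∧ (∀ u ∈ A, y' u = y u) ∧ dst y' y + J.card ≤ J'.card ∧
      ((rule i = Rule.weak i' ∧ A' = A) ∨ ∃ (x : Fin n) (a : ℕ), A' = insert x A ∧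
        ((rule i = Rule.res x i' a ∧ y' x = false) ∨ (rule i = Rule.res x a i' ∧ y' x = true)))

/-- (RST) the values outside `A ∪ W` do not matter. -/
def T_RST : Prop :=
  ∀ (n k m : ℕ) (F : Fml n k m) (j t : ℕ) (y y' : Fin n → Bool) (A W : Finset (Fin n))
    (J : Finset (Fin m)), St F j t y A W J → (∀ u ∈ A ∪ W, y' u = y u) → St F j t y' A W J

/-- the state at the line `l` of `U` (or at the line `r`), `y₀` are the fixed values on `A₀` -/
def At {n k m : ℕ} (F : Fml n k m) (j t d e : ℕ) (line : ℕ → Clause n) (y₀ : Fin n → Bool)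
    (A₀ : Finset (Fin n)) (l : ℕ) : Prop :=
  ∃ (y : Fin n → Bool) (W : Finset (Fin n)) (J : Finset (Fin m)),
    St F j t y (A₀ ∪ vs (line l)) W J ∧ (∀ u ∈ A₀, y u = y₀ u) ∧ Falsified (line l) y ∧
    (A₀ ∪ vs (line l)).card + e + d ≤ n

/-- (PCA) the path through a piece which is a tree. -/
def T_PCA : Prop :=
  ∀ (n k m : ℕ) (F : Fml n k m) (j t d e s₀ : ℕ), Par F j t d e s₀ →
    ∀ (S r : ℕ) (line : ℕ → Clause n) (rule : ℕ → Rule n), IsRef F S r line rule →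
    ∀ (U : Finset ℕ) (an : ℕ → ℕ) (ls : ℕ → List (Fin n × Bool)), Tree S r rule U an ls →
    ∀ (x z y₀ : Fin n → Bool) (A₀ : Finset (Fin n)) (l : ℕ), l < S → l ≤ r → (l ∈ U ∨ l = r) →
    dst y₀ x ≤ t → At F j t d e line y₀ A₀ l →
    (∃ i, i < S ∧ an i = l ∧ Ser (line l) (pas (ls i)) (5 * d) x z A₀) ∨
      ∃ l', l' < l ∧ l' ∈ U ∧ At F j t d e line y₀ A₀ l'

/-- (PCB) the path through a piece which is almost regular. -/
def T_PCB : Prop :=
  ∀ (n k m : ℕ) (F : Fml n k m) (j t d e s₀ : ℕ), Par F j t d e s₀ → 1 ≤ d →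
    2 * d + e ≤ n →
    ∀ (S r : ℕ) (line : ℕ → Clause n) (rule : ℕ → Rule n), IsRef F S r line rule →
    ∀ (U : Finset ℕ) (R : ℕ), (∀ (a i : ℕ) (l : List (Fin n)), (a = r ∨ a ∈ U) →
      Seg rule U a i l → ∀ v, l.count v ≤ R) →
    ∀ (x z y₀ : Fin n → Bool) (A₀ : Finset (Fin n)) (l : ℕ), l < S → l ≤ r → (l ∈ U ∨ l = r) →
    dst y₀ x ≤ t → At F j t d e line y₀ A₀ l →
    (∃ i, i < S ∧ Ser (line l) (fal (line i)) (5 * d + 2 * t * (n * R / d + 1)) x z A₀) ∨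
      ∃ l', l' < l ∧ l' ∈ U ∧ At F j t d e line y₀ A₀ l'

/-- (ALZ) one line for all `z`. -/
def T_ALZ : Prop :=
  ∀ (n k m : ℕ) (F : Fml n k m) (j t d e s₀ : ℕ), Par F j t d e s₀ →
    ∀ (S r : ℕ) (line : ℕ → Clause n), r < S → line r = ∅ → ∀ (U : Finset ℕ)
    (G : (Fin n → Bool) → (Fin n → Bool) → Finset (Fin n) → ℕ → Prop),
    (∀ (x z y₀ : Fin n → Bool) (A₀ : Finset (Fin n)) (l : ℕ), l < S → l ≤ r → (l ∈ U ∨ l = r) →
      dst y₀ x ≤ t → At F j t d e line y₀ A₀ l → G x z A₀ l ∨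
        ∃ l', l' < l ∧ l' ∈ U ∧ At F j t d e line y₀ A₀ l') →
    ∀ (x : Fin n → Bool) (A₀ : Finset (Fin n)), A₀.card + (e + d) ≤ n →
      ∃ l, l < S ∧ (l ∈ U ∨ l = r) ∧ ∀ z, G x z A₀ l

/-! ### Counting -/

open Classical in
/-- (CN3) the triples served by a pair. -/
def T_CN3 : Prop :=
  ∀ (n q : ℕ) (C : Clause n) (P : Fin n → Option Bool),
    ((univ : Finset ((Fin n → Bool) × (Fin n → Bool) × Finset (Fin n))).filter fun p =>
      Ser C P q p.1 p.2.1 p.2.2).card ≤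
    6 ^ (vs C).card * 4 ^ (n - (vs C).card) * bl n q ^ 2

open Classical in
/-- (CN4) the triples served by all pairs with the same clause. -/
def T_CN4 : Prop :=
  ∀ (n q : ℕ) (C : Clause n),
    ((univ : Finset ((Fin n → Bool) × (Fin n → Bool) × Finset (Fin n))).filter fun p =>
      ∃ P, Ser C P q p.1 p.2.1 p.2.2).card ≤
    6 ^ (vs C).card * 8 ^ (n - (vs C).card) * bl n q ^ 2

/-- (CN5) everything is served. -/
def T_CN5 : Prop :=
  ∀ (n S r q a w₀ : ℕ) (line : ℕ → Clause n) (U : Finset ℕ) (E : Finset (ℕ × ℕ))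
    (P : ℕ → ℕ → Fin n → Option Bool), line r = ∅ → w₀ ≤ n →
    (∀ (x : Fin n → Bool) (A : Finset (Fin n)), A.card + a ≤ n →
      ∃ l, (l ∈ U ∨ l = r) ∧ ∀ z, ∃ i, (l, i) ∈ E ∧ Ser (line l) (P l i) q x z A) →
    8 ^ n ≤ E.card * (6 ^ w₀ * 4 ^ (n - w₀) * bl n q ^ 2) +
      U.card * (6 ^ w₀ * 8 ^ (n - w₀) * bl n q ^ 2) + 4 ^ n * bl n a

/-- (NUM) the numbers. -/
def T_NUM : Prop :=
  ∀ (n N M X b : ℕ), 1 ≤ X → M ≤ N → 4 * (4 ^ n * b) ≤ 8 ^ n →
    (∀ w₀, w₀ ≤ n → 8 ^ n ≤ N * (6 ^ w₀ * 4 ^ (n - w₀) * X) +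
      M * (6 ^ w₀ * 8 ^ (n - w₀) * X) + 4 ^ n * b) →
    4 ^ n ≤ 1024 * N ^ 2 * (M + 1) ^ 3 * X ^ 5

/-- (BLA) balls. -/
def T_BLA : Prop :=
  (∀ n a b : ℕ, bl n (a + b) ≤ bl n a * bl n b) ∧ (∀ n a b : ℕ, a ≤ b → bl n a ≤ bl n b) ∧
    ∀ n a : ℕ, 1 ≤ bl n a

end Pool.Agent.H97.RL
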